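import Pool.Agent.K7.H65.G2.Norm

set_option autoImplicit false
set_option linter.unusedSectionVars false

/-!
# The class group of a Dedekind domain with commuting involutions
-/

namespace Pool.Agent.K7.H65.G3

open Pool.Agent.K7.H65.G2
open scoped nonZeroDivisors

section

variable {R₁ R₂ R₀ B : Type} [CommRing R₁] [IsDedekindDomain R₁] [CommRing R₂] [IsDedekindDomain R₂]
  [CommRing R₀] [IsPrincipalIdealRing R₀] [CommRing B] [IsDedekindDomain B]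
  [Algebra R₁ B] [Module.IsTorsionFree R₁ B] [Algebra R₂ B] [Module.IsTorsionFree R₂ B]

theorem mk0_eq_of_mul {I J : (Ideal B)⁰} {x y : B} (hx : x ≠ 0) (hy : y ≠ 0)
    (h : (I : Ideal B) * Ideal.span {x} = (J : Ideal B) * Ideal.span {y}) :
    ClassGroup.mk0 I = ClassGroup.mk0 J := by
  rw [ClassGroup.mk0_eq_mk0_iff]
  exact ⟨x, y, hx, hy, by rw [mul_comm, h, mul_comm]⟩

/-- twice a class comes from the classes of the two quotients -/
theorem sq_class (φ₀ : R₀ →+* B) {σ₁ σ₂ τ : B ≃+* B} (h1 : ∀ z, σ₁ (σ₁ z) = z)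
    (h2 : ∀ z, σ₂ (σ₂ z) = z) (h0 : ∀ z, τ (τ z) = z) (h12 : ∀ z, σ₁ (τ z) = σ₂ z)
    (hN1 : ∀ z, ∃ r, algebraMap R₁ B r = z * σ₁ z) (hN2 : ∀ z, ∃ r, algebraMap R₂ B r = z * σ₂ z)
    (hN0 : ∀ z, ∃ r, φ₀ r = z * τ z) (c : ClassGroup B) :
    ∃ (c₁ : ClassGroup R₁) (c₂ : ClassGroup R₂),
      c ^ 2 = ClassGroup.extendedHom R₁ B c₁ * ClassGroup.extendedHom R₂ B c₂ := by
  obtain ⟨I, rfl⟩ := ClassGroup.mk0_surjective c
  have hI : (I : Ideal B) ≠ ⊥ := nonZeroDivisors.coe_ne_zero I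
  obtain ⟨J₁, hJ₁⟩ := exists_map_eq (algebraMap R₁ B) h1 hN1 (I : Ideal B)
  obtain ⟨J₂, hJ₂⟩ := exists_map_eq (algebraMap R₂ B) h2 hN2 (I : Ideal B)
  obtain ⟨J₀, hJ₀⟩ := exists_map_eq φ₀ h0 hN0 (I : Ideal B)
  have hσ : ∀ {σ : B ≃+* B} (hs : ∀ z, σ (σ z) = z), (I : Ideal B).map (σ : B →+* B) ≠ ⊥ := by
    intro σ hs h
    apply hI
    rw [← map_invol hs (I : Ideal B), h, Ideal.map_bot]
  obtain ⟨b, hb⟩ : ∃ b : B, (I : Ideal B) * (I : Ideal B).map (τ : B →+* B) = Ideal.span {b} := by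
    obtain ⟨b, hb⟩ := (IsPrincipalIdealRing.principal J₀).principal
    refine ⟨φ₀ b, ?_⟩
    rw [← hJ₀, hb, Ideal.submodule_span_eq, Ideal.map_span, Set.image_singleton]
  have hb0 : b ≠ 0 := by
    rintro rfl
    rw [Ideal.span_singleton_eq_bot.2 rfl] at hb
    exact mul_ne_zero hI (hσ h0) hb
  have hsb : b * σ₁ b ≠ 0 := mul_ne_zero hb0 (by
    intro h
    exact hb0 (σ₁.injective (by rw [h, map_zero])))
  have hσ₂ : ((I : Ideal B).map (τ : B →+* B)).map (σ₁ : B →+* B) = (I : Ideal B).map (σ₂ : B →+* B) := by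
    rw [Ideal.map_map]
    congr 1
    ext z; exact h12 z
  have key : (I : Ideal B) ^ 2 * Ideal.span {b * σ₁ b} =
      J₁.map (algebraMap R₁ B) * J₂.map (algebraMap R₂ B) * Ideal.span {b} := by
    have h3 : Ideal.span {b * σ₁ b} =
        ((I : Ideal B) * (I : Ideal B).map (τ : B →+* B)) *
          ((I : Ideal B) * (I : Ideal B).map (τ : B →+* B)).map (σ₁ : B →+* B) := by
      rw [hb, Ideal.map_span, Set.image_singleton, Ideal.span_singleton_mul_span_singleton]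
      rfl
    rw [h3, ← hb, Ideal.map_mul, hσ₂, hJ₁, hJ₂]
    ring
  have hJ₁0 : J₁ ≠ ⊥ := by
    rintro rfl
    rw [Ideal.map_bot] at hJ₁
    exact mul_ne_zero hI (hσ h1) hJ₁.symm
  have hJ₂0 : J₂ ≠ ⊥ := by
    rintro rfl
    rw [Ideal.map_bot] at hJ₂
    exact mul_ne_zero hI (hσ h2) hJ₂.symm
  refine ⟨ClassGroup.mk0 ⟨J₁, mem_nonZeroDivisors_of_ne_zero hJ₁0⟩,
    ClassGroup.mk0 ⟨J₂, mem_nonZeroDivisors_of_ne_zero hJ₂0⟩, ?_⟩
  rw [ClassGroup.extendedHom_mk0, ClassGroup.extendedHom_mk0, ← map_pow, ← map_mul]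
  exact mk0_eq_of_mul hsb hb0 key

end

end Pool.Agent.K7.H65.G3
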