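import Pool.Agent.H126T.Field
import Pool.Agent.W165.CE.FF

set_option autoImplicit false
set_option linter.unusedSectionVars false

/-!
# The number of points of `y² = x⁵ + a x³ + c⁴ x` over finite fields
-/

namespace Pool.Agent.K7.H65.G3

open Finset Polynomial

section sums

variable {E : Type} [Field E] [Fintype E] [DecidableEq E]

/-- the sum over the solutions `x` of `x² + c² = V x` -/
theorem inner_sum (h2 : (2 : E) ≠ 0) (c : E) (hc : c ≠ 0) (V : E) :
    ∑ x ∈ univ.filter (fun x : E => x ^ 2 + c ^ 2 = V * x), quadraticChar E x =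
      quadraticChar E (V - 2 * c) + quadraticChar E (V + 2 * c) := by
  have hF : ringChar E ≠ 2 := by
    intro h
    apply h2
    have := ringChar.Nat.cast_ringChar (R := E)
    rw [h] at this
    exact_mod_cast this
  have h9 : (c ^ 2 : E) ≠ 0 := pow_ne_zero 2 hc
  have hchar : ∀ x c : E, x ≠ 0 → c ≠ 0 → ∀ w : E, c ^ 2 = x * w →
      quadraticChar E w = quadraticChar E x := by
    intro x c hx hc w h
    have h1 : quadraticChar E x * quadraticChar E w = 1 := by
      rw [← map_mul, ← h, quadraticChar_sq_one' hc]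
    have h4 : quadraticChar E x * quadraticChar E x = 1 := by
      rw [← sq]; exact quadraticChar_sq_one hx
    have h5 : quadraticChar E x ≠ 0 := by
      intro h0; rw [h0] at h1; simp at h1
    exact mul_left_cancel₀ h5 (by rw [h1, h4])
  by_cases hex : ∃ x : E, x ^ 2 + c ^ 2 = V * x
  · obtain ⟨x, hx⟩ := hex
    have hx0 : x ≠ 0 := by
      rintro rfl
      apply h9
      linear_combination hx
    have hset : univ.filter (fun z : E => z ^ 2 + c ^ 2 = V * z) = {x, c ^ 2 / x} := by
      ext z
      simp only [mem_filter, mem_univ, true_and, mem_insert, mem_singleton]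
      constructor
      · intro hz
        by_cases hzx : z = x
        · exact Or.inl hzx
        · right
          rw [eq_div_iff hx0]
          have h4 : (z - x) * (z * x - c ^ 2) = 0 := by
            linear_combination x * hz - z * hx
          rcases mul_eq_zero.1 h4 with h5 | h5
          · exact absurd (sub_eq_zero.1 h5) hzx
          · exact sub_eq_zero.1 h5
      · rintro (rfl | rfl)
        · exact hx
        · field_simp
          linear_combination hx
    have h5 : quadraticChar E (c ^ 2 / x) = quadraticChar E x := by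
      refine hchar x c hx0 hc _ ?_
      rw [mul_div_cancel₀ _ hx0]
    have hm : (x - c) ^ 2 = x * (V - 2 * c) := by linear_combination hx
    have hp : (x + c) ^ 2 = x * (V + 2 * c) := by linear_combination hx
    have h12 : ∀ w : E, w ≠ 0 → quadraticChar E (2 ^ 2 * w) = quadraticChar E w := by
      intro w hw
      rw [map_mul, quadraticChar_sq_one' h2, one_mul]
    rw [hset]
    by_cases ha : x = c
    · have hV : V = 2 * c := by
        have : x * (V - 2 * c) = 0 := by rw [← hm, ha]; ring
        rcases mul_eq_zero.1 this with h | h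
        · exact absurd h hx0
        · exact sub_eq_zero.1 h
      have hxx : c ^ 2 / x = x := by
        rw [div_eq_iff hx0, ha]; ring
      have e1 : 2 * c - 2 * c = 0 := sub_self _
      have e2 : 2 * c + 2 * c = 2 ^ 2 * x := by rw [ha]; ring
      rw [hxx, pair_eq_singleton, sum_singleton, hV, e1, e2, h12 _ hx0]
      simp
    · by_cases hb : x = -c
      · have hV : V = -(2 * c) := by
          have : x * (V + 2 * c) = 0 := by rw [← hp, hb]; ring
          rcases mul_eq_zero.1 this with h | h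
          · exact absurd h hx0
          · linear_combination h
        have hxx : c ^ 2 / x = x := by
          rw [div_eq_iff hx0, hb]; ring
        have e1 : -(2 * c) + 2 * c = 0 := neg_add_cancel _
        have e2 : -(2 * c) - 2 * c = 2 ^ 2 * x := by rw [hb]; ring
        rw [hxx, pair_eq_singleton, sum_singleton, hV, e1, e2, h12 _ hx0]
        simp
      · have hne : x ≠ c ^ 2 / x := by
          intro h
          rw [eq_div_iff hx0] at h
          have : (x - c) * (x + c) = 0 := by linear_combination h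
          rcases mul_eq_zero.1 this with h | h
          · exact ha (sub_eq_zero.1 h)
          · exact hb (by linear_combination h)
        rw [sum_pair hne, h5, hchar x (x - c) hx0 (sub_ne_zero.2 ha) _ hm,
          hchar x (x + c) hx0 (fun h => hb (by linear_combination h)) _ hp]
  · push Not at hex
    have hempty : univ.filter (fun z : E => z ^ 2 + c ^ 2 = V * z) = ∅ := by
      ext z; simp [hex z]
    rw [hempty, sum_empty]
    have hns : ¬ IsSquare ((V - 2 * c) * (V + 2 * c)) := by
      rintro ⟨r, hr⟩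
      apply hex ((V + r) / 2)
      field_simp
      linear_combination -hr
    have h0 : (V - 2 * c) * (V + 2 * c) ≠ 0 := by
      intro h; exact hns (by rw [h]; exact ⟨0, by simp⟩)
    have h1 : quadraticChar E ((V - 2 * c) * (V + 2 * c)) = -1 :=
      quadraticChar_neg_one_iff_not_isSquare.2 hns
    rw [map_mul] at h1
    have h4 : quadraticChar E (V + 2 * c) * quadraticChar E (V + 2 * c) = 1 := by
      rw [← sq]; exact quadraticChar_sq_one (right_ne_zero_of_mul h0)
    have h5 : quadraticChar E (V + 2 * c) ≠ 0 := by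
      intro h; rw [h] at h4; simp at h4
    have h6 : (quadraticChar E (V - 2 * c) + quadraticChar E (V + 2 * c)) *
        quadraticChar E (V + 2 * c) = 0 := by
      rw [add_mul, h1, h4]; norm_num
    exact ((mul_eq_zero.1 h6).resolve_right h5).symm

theorem sum_quint (h2 : (2 : E) ≠ 0) (h3 : (3 : E) ≠ 0) (a c : E) (hc : c ≠ 0) :
    ∑ x : E, quadraticChar E (x ^ 5 + a * x ^ 3 + c ^ 4 * x) =
      ∑ x : E, quadraticChar E (x ^ 3 + (81 * a - 270 * c ^ 2) * x + 108 * c * (14 * c ^ 2 - 9 * a)) +
      ∑ x : E, quadraticChar E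
        (x ^ 3 + (81 * a - 270 * c ^ 2) * x + -(108 * c * (14 * c ^ 2 - 9 * a))) := by
  have h9 : (c ^ 2 : E) ≠ 0 := pow_ne_zero 2 hc
  -- step 1
  have e1 : ∑ x : E, quadraticChar E (x ^ 5 + a * x ^ 3 + c ^ 4 * x) =
      ∑ V : E, quadraticChar E (V ^ 2 + a - 2 * c ^ 2) *
        ∑ x ∈ univ.filter (fun x : E => x ^ 2 + c ^ 2 = V * x), quadraticChar E x := by
    simp_rw [mul_sum, sum_filter]
    rw [sum_comm]
    refine sum_congr rfl fun x _ => ?_
    by_cases hx : x = 0
    · subst hx
      rw [sum_eq_zero]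
      · simp
      · intro V _
        rw [if_neg]
        intro h
        apply h9
        linear_combination h
    · have hiff : ∀ V : E, x ^ 2 + c ^ 2 = V * x ↔ V = x + c ^ 2 / x := by
        intro V
        constructor
        · intro h
          field_simp
          linear_combination -h
        · rintro rfl
          field_simp
      simp_rw [hiff]
      rw [sum_ite_eq' univ (x + c ^ 2 / x), if_pos (mem_univ _), ← map_mul]
      have : x ^ 5 + a * x ^ 3 + c ^ 4 * x =
          x ^ 2 * (((x + c ^ 2 / x) ^ 2 + a - 2 * c ^ 2) * x) := by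
        field_simp
        ring
      rw [this, map_mul (quadraticChar E) (x ^ 2), quadraticChar_sq_one' hx, one_mul]
  rw [e1]
  simp_rw [inner_sum h2 c hc, mul_add]
  rw [sum_add_distrib]
  have h27 : (27 : E) ≠ 0 := by
    have : (27 : E) = 3 * 3 * 3 := by norm_num
    rw [this]; exact mul_ne_zero (mul_ne_zero h3 h3) h3
  have h9' : (9 : E) ≠ 0 := by
    have : (9 : E) = 3 * 3 := by norm_num
    rw [this]; exact mul_ne_zero h3 h3
  have h729 : ∀ w : E, quadraticChar E (27 ^ 2 * w) = quadraticChar E w := by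
    intro w
    rw [map_mul, quadraticChar_sq_one' h27, one_mul]
  -- `X = 9 V - 6 c`
  have hsub : ∀ s : E, ∑ V : E, quadraticChar E (V ^ 2 + a - 2 * s ^ 2) *
      quadraticChar E (V - 2 * s) = ∑ x : E, quadraticChar E
        (x ^ 3 + (81 * a - 270 * s ^ 2) * x + 108 * s * (14 * s ^ 2 - 9 * a)) := by
    intro s
    refine Fintype.sum_equiv ((Equiv.mulLeft₀ (9 : E) h9').trans (Equiv.addRight (-(6 * s)))) _ _
      (fun V => ?_)
    show quadraticChar E (V ^ 2 + a - 2 * s ^ 2) * quadraticChar E (V - 2 * s) =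
      quadraticChar E ((9 * V + -(6 * s)) ^ 3 + (81 * a - 270 * s ^ 2) * (9 * V + -(6 * s)) +
        108 * s * (14 * s ^ 2 - 9 * a))
    rw [← map_mul, ← h729]
    congr 1
    ring
  congr 1
  · exact hsub c
  · have h := hsub (-c)
    have e2 : ∀ V : E, V - 2 * -c = V + 2 * c := fun V => by ring
    have e3 : (-c) ^ 2 = c ^ 2 := by ring
    have e4 : 108 * -c * (14 * c ^ 2 - 9 * a) = -(108 * c * (14 * c ^ 2 - 9 * a)) := by ring
    simp only [e2, e3, e4] at h
    exact h

end sums

section count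

open Pool.Agent.H341R2.Sharp Pool.Agent.H126T W165.CE Pool.Agent.H82R3.EK

variable {k : Type} [Field k] [Finite k]

/-- the power sums of the Frobenius eigenvalues of `y² = x³ + p x + q` -/
theorem T_wei [Fintype k] [DecidableEq k] (h2 : (2 : k) ≠ 0) (p q : k)
    (hdisc : 4 * p ^ 3 + 27 * q ^ 2 ≠ 0) (α β : ℂ)
    (hα : α + β = (Nat.card k : ℂ) - Nat.card {P : k × k // P.2 ^ 2 = P.1 ^ 3 + p * P.1 + q})
    (hβ : α * β = Nat.card k) (E : Type) [Field E] [Fintype E] [DecidableEq E] [Algebra k E] (n : ℕ)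
    (hn : 1 ≤ n) (hE : Nat.card E = Nat.card k ^ n) :
    ((∑ x : E, quadraticChar E (x ^ 3 + algebraMap k E p * x + algebraMap k E q) : ℤ) : ℂ) =
      -(α ^ n + β ^ n) := by
  have hF : ringChar k ≠ 2 := by
    intro h
    apply h2
    have := ringChar.Nat.cast_ringChar (R := k)
    rw [h] at this
    exact_mod_cast this
  have e2 : ∑ x : E, quadraticChar E (x ^ 3 + algebraMap k E p * x + algebraMap k E q) =
      T (wei p q) n := by
    have hfr : Module.finrank k E = n := by
      have h1 := Module.card_eq_pow_finrank (K := k) (V := E)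
      rw [← Nat.card_eq_fintype_card, ← Nat.card_eq_fintype_card, hE] at h1
      have hk1 : 1 < Nat.card k := Finite.one_lt_card
      exact (Nat.pow_right_injective hk1 h1).symm
    rw [← hfr, T_eq_sum (E := E) hF]
    refine sum_congr rfl fun x _ => ?_
    rw [aeval_wei]
  have e3 : ((Nat.card k : ℤ) : ℤ) - Nat.card {P : k × k // P.2 ^ 2 = P.1 ^ 3 + p * P.1 + q} =
      - T (wei p q) 1 := by
    have h := card_points hF (fun x : k => x ^ 3 + p * x + q)
    have h1 := T_eq_sum (E := k) hF (wei p q)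
    rw [Module.finrank_self] at h1
    rw [h1, h, Nat.card_eq_fintype_card]
    have : ∀ x : k, aeval x (wei p q) = x ^ 3 + p * x + q := by
      intro x
      rw [aeval_wei]; simp
    simp_rw [this]
    ring
  obtain ⟨m, rfl⟩ : ∃ m, n = m + 1 := ⟨n - 1, by omega⟩
  have e4 := T_luc hF (wei_natDegree p q) (wei_monic p q) m
  rw [A_two hF _ _ hdisc, ← e3] at e4
  have hα' : α + β = (((Nat.card k : ℤ) -
      Nat.card {P : k × k // P.2 ^ 2 = P.1 ^ 3 + p * P.1 + q} : ℤ) : ℂ) := by
    rw [hα]; push_cast; ring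
  have hβ' : α * β = ((Fintype.card k : ℤ) : ℂ) := by
    rw [hβ, Nat.card_eq_fintype_card]; push_cast; ring
  have e5 := luc_eq hα' hβ' (m + 1)
  rw [e2, e4, Int.cast_neg, e5]

/-- the number of points of the smooth projective curve `y² = x⁵ + a x³ + c⁴ x` over the finite field
`E` -/
noncomputable def pts (E : Type) [Field E] (a c : E) : ℕ :=
  Nat.card {P : E × E // P.2 ^ 2 = P.1 ^ 5 + a * P.1 ^ 3 + c ^ 4 * P.1} + 1

/-- the number of points of `y² = x⁵ + a x³ + c⁴ x` over the extension of degree `n` -/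
theorem pts_eq (h2 : (2 : k) ≠ 0) (h3 : (3 : k) ≠ 0) (a c : k) (hc : c ≠ 0)
    (hd1 : a + 2 * c ^ 2 ≠ 0) (hd2 : a - 2 * c ^ 2 ≠ 0) (p q : k) (hp : p = 81 * a - 270 * c ^ 2)
    (hq : q = 108 * c * (14 * c ^ 2 - 9 * a)) (α β α' β' : ℂ)
    (hα : α + β = (Nat.card k : ℂ) - Nat.card {P : k × k // P.2 ^ 2 = P.1 ^ 3 + p * P.1 + q})
    (hβ : α * β = Nat.card k)
    (hα' : α' + β' = (Nat.card k : ℂ) - Nat.card {P : k × k // P.2 ^ 2 = P.1 ^ 3 + p * P.1 + -q})
    (hβ' : α' * β' = Nat.card k) (n : ℕ) (hn : 1 ≤ n) (E : Type) [Field E] [Finite E] (φ : k →+* E)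
    (hE : Nat.card E = Nat.card k ^ n) :
    (pts E (φ a) (φ c) : ℂ) = (Nat.card E : ℂ) + 1 - (α ^ n + β ^ n + α' ^ n + β' ^ n) := by
  classical
  let _ := Fintype.ofFinite k
  let _ := Fintype.ofFinite E
  let _ : Algebra k E := φ.toAlgebra
  have hF : ringChar k ≠ 2 := by
    intro h
    apply h2
    have := ringChar.Nat.cast_ringChar (R := k)
    rw [h] at this
    exact_mod_cast this
  have hE2 : ringChar E ≠ 2 := by rwa [← Algebra.ringChar_eq k E]
  have hcE : φ c ≠ 0 := (_root_.map_ne_zero _).2 hc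
  have h2E : (2 : E) ≠ 0 := by
    rw [← map_ofNat φ 2]; exact (_root_.map_ne_zero _).2 h2
  have h3E : (3 : E) ≠ 0 := by
    rw [← map_ofNat φ 3]; exact (_root_.map_ne_zero _).2 h3
  have hN : 4 * p ^ 3 + 27 * q ^ 2 = 2125764 * (a + 2 * c ^ 2) ^ 2 * (a - 2 * c ^ 2) := by
    rw [hp, hq]; ring
  have hne : (2125764 : k) ≠ 0 := by
    have : (2125764 : k) = 2 ^ 2 * 3 ^ 12 := by norm_num
    rw [this]; exact mul_ne_zero (pow_ne_zero _ h2) (pow_ne_zero _ h3)
  have hdisc : 4 * p ^ 3 + 27 * q ^ 2 ≠ 0 := by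
    rw [hN]
    exact mul_ne_zero (mul_ne_zero hne (pow_ne_zero _ hd1)) hd2
  have hdisc' : 4 * p ^ 3 + 27 * (-q) ^ 2 ≠ 0 := by
    rw [neg_sq]; exact hdisc
  have t1 := T_wei h2 p q hdisc α β hα hβ E n hn hE
  have t2 := T_wei h2 p (-q) hdisc' α' β' hα' hβ' E n hn hE
  have h := card_points hE2 (fun x : E => x ^ 5 + φ a * x ^ 3 + φ c ^ 4 * x)
  rw [sum_quint h2E h3E (φ a) (φ c) hcE] at h
  have r1 : algebraMap k E p = 81 * φ a - 270 * φ c ^ 2 := by
    show φ p = _
    rw [hp]; simp only [map_sub, map_mul, map_pow, map_ofNat]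
  have r2 : algebraMap k E q = 108 * φ c * (14 * φ c ^ 2 - 9 * φ a) := by
    show φ q = _
    rw [hq]; simp only [map_sub, map_mul, map_pow, map_ofNat]
  rw [r1, r2] at t1
  rw [r1, map_neg, r2] at t2
  unfold pts
  have h' : ((Nat.card {P : E × E // P.2 ^ 2 = P.1 ^ 5 + φ a * P.1 ^ 3 + φ c ^ 4 * P.1} : ℕ) : ℂ) =
      (((Nat.card {P : E × E // P.2 ^ 2 = P.1 ^ 5 + φ a * P.1 ^ 3 + φ c ^ 4 * P.1} : ℕ) : ℤ) : ℂ) :=
    (Int.cast_natCast _).symm
  rw [Nat.cast_add, Nat.cast_one, h', h, Int.cast_add, Int.cast_add, t1, t2, Nat.card_eq_fintype_card]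
  push_cast
  ring

end count

end Pool.Agent.K7.H65.G3
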