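import Pool.Agent.K7.H65.G2.Norm
import Pool.Agent.TH943.HJ.Ded

set_option autoImplicit false
set_option linter.unusedSectionVars false

/-!
# The curve `y² = x⁵ + a x³ + e⁴ x`

The ring of the affine curve with `x` inverted, its involutions `(x, y) ↦ (e² / x, ∓ e³ y / x³)`, and
their norms.
-/

namespace Pool.Agent.K7.H65.G3

open Polynomial Pool.Agent.TH943.HJ Pool.Agent.K7.H65.G2

/-- `x⁵ + a x³ + e⁴ x` -/
noncomputable def quint {R : Type*} [CommRing R] (a e : R) : R[X] :=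
  X ^ 5 + C a * X ^ 3 + C (e ^ 4) * X

/-- `x³ + (81 a - 270 e²) x + 108 e (14 e² - 9 a)` -/
noncomputable def cubic {R : Type*} [CommRing R] (a e : R) : R[X] :=
  X ^ 3 + C (81 * a - 270 * e ^ 2) * X + C (108 * e * (14 * e ^ 2 - 9 * a))

/-! ### The algebra -/

section alg

variable {F B : Type} [Field F] [CharZero F] [CommRing B] [Algebra F B]

/-- The data: `x`, `x⁻¹` and `y` in `B`. -/
structure Gens (B : Type) [CommRing B] (F : Type) [Field F] [Algebra F B] (a e : F) where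
  x : B
  xi : B
  y : B
  hx : x * xi = 1
  hy : y ^ 2 = x ^ 5 + algebraMap F B a * x ^ 3 + algebraMap F B (e ^ 4) * x

variable {a e : F} (G : Gens B F a e)

/-- `x + e² / x` -/
noncomputable def Gens.V : B := G.x + algebraMap F B (e ^ 2) * G.xi

/-- The ring `F[V]`. -/
noncomputable def Gens.S : Subalgebra F B := (aeval (R := F) G.V).range

theorem Gens.V_mem : G.V ∈ G.S := ⟨X, by simp⟩

theorem Gens.alg_mem (c : F) : algebraMap F B c ∈ G.S := G.S.algebraMap_mem c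

/-- The elements `α + β x + γ y + δ x y`. -/
def Gens.Spans : Prop := ∀ z : B, ∃ α ∈ G.S, ∃ β ∈ G.S, ∃ γ ∈ G.S, ∃ δ ∈ G.S,
  z = α + β * G.x + γ * G.y + δ * (G.x * G.y)

theorem Gens.x_sq : G.x ^ 2 = G.V * G.x - algebraMap F B (e ^ 2) := by
  unfold Gens.V
  have h := G.hx
  linear_combination (-(algebraMap F B (e ^ 2))) * h

theorem Gens.xi_eq (he : e ≠ 0) : G.xi = algebraMap F B ((e ^ 2)⁻¹) * (G.V - G.x) := by
  unfold Gens.V
  have h9 : (e ^ 2 : F) ≠ 0 := pow_ne_zero 2 he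
  have : algebraMap F B ((e ^ 2)⁻¹) * algebraMap F B (e ^ 2) = 1 := by
    rw [← map_mul, inv_mul_cancel₀ h9, map_one]
  linear_combination (-G.xi) * this

/-- The main computation: for `e'² = e²` and the ring homomorphism `s` with `s(x) = e² / x`,
`s(y) = - e'³ y / x³`. -/
theorem Gens.norm_mem (hG : G.Spans) (e' : F) (he' : e' ^ 2 = e ^ 2) (s : B →+* B)
    (hsF : ∀ c, s (algebraMap F B c) = algebraMap F B c)
    (hsx : s G.x = algebraMap F B (e ^ 2) * G.xi)
    (hsxi : algebraMap F B (e ^ 2) * s G.xi = G.x)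
    (hsy : s G.y = - algebraMap F B (e' ^ 3) * G.xi ^ 3 * G.y) (z : B) :
    ∃ α ∈ G.S, ∃ β ∈ G.S, z * s z =
      α + β * ((G.x - algebraMap F B e') * G.y * G.xi ^ 2) := by
  obtain ⟨α, hα, β, hβ, γ, hγ, δ, hδ, rfl⟩ := hG z
  have hsV : s G.V = G.V := by
    unfold Gens.V
    rw [map_add, map_mul, hsF, hsx, hsxi]
    ring
  have hsS : ∀ a ∈ G.S, s a = a := by
    rintro a ⟨p, rfl⟩
    show s (aeval G.V p) = aeval G.V p
    rw [aeval_def, hom_eval₂, hsV]
    congr 1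
    ext a; exact hsF a
  have hx := G.hx
  have hy := G.hy
  have hV : G.V = G.x + algebraMap F B (e ^ 2) * G.xi := rfl
  obtain ⟨c, hc⟩ : ∃ c : B, c = algebraMap F B e' := ⟨_, rfl⟩
  have h9 : algebraMap F B (e ^ 2) = c ^ 2 := by
    rw [hc, ← map_pow, ← he']
  have h27 : algebraMap F B (e' ^ 3) = c ^ 3 := by
    rw [hc, ← map_pow]
  have h81 : algebraMap F B (e ^ 4) = c ^ 4 := by
    rw [hc, ← map_pow]; congr 1
    calc e ^ 4 = (e ^ 2) ^ 2 := by ring
      _ = (e' ^ 2) ^ 2 := by rw [he']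
      _ = e' ^ 4 := by ring
  obtain ⟨d, hd⟩ : ∃ d : B, d = algebraMap F B a := ⟨_, rfl⟩
  rw [← hd, h81] at hy
  rw [h9] at hV hsx
  rw [h27] at hsy
  rw [← hc]
  simp only [map_add, map_mul, hsS α hα, hsS β hβ, hsS γ hγ, hsS δ hδ, hsx, hsy]
  have hVm := G.V_mem
  have hcm : c ∈ G.S := by rw [hc]; exact G.alg_mem _
  have hdm : d ∈ G.S := by rw [hd]; exact G.alg_mem _
  refine ⟨α ^ 2 + α * β * G.V + β ^ 2 * c ^ 2 -
      c ^ 3 * (G.V ^ 2 + d - 2 * c ^ 2) * (γ ^ 2 + γ * δ * G.V + δ ^ 2 * c ^ 2), ?_,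
    (α * γ + β * δ * c ^ 2) * (G.V + c) + β * γ * c ^ 2 + α * δ * (G.V ^ 2 + c * G.V - c ^ 2), ?_, ?_⟩
  · have h4 : (2 : B) ∈ G.S := by
      have := G.S.natCast_mem 2
      exact_mod_cast this
    apply_rules [Subalgebra.sub_mem, Subalgebra.add_mem, Subalgebra.mul_mem, Subalgebra.pow_mem]
  · apply_rules [Subalgebra.sub_mem, Subalgebra.add_mem, Subalgebra.mul_mem, Subalgebra.pow_mem]
  · generalize G.V = V at *
    generalize G.x = x at *
    generalize G.xi = t at *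
    generalize G.y = y at *
    subst hV
    have e1 : y ^ 2 * t ^ 3 = (x + c ^ 2 * t) ^ 2 + d - 2 * c ^ 2 := by
      rw [hy]
      have hx3 : x ^ 3 * t ^ 3 = 1 := by rw [← mul_pow, hx, one_pow]
      linear_combination (x ^ 2 + d) * hx3 + (c ^ 4 * t ^ 2 - 2 * c ^ 2) * hx
    have eA : (α + β * x) * (α + β * (c ^ 2 * t)) =
        α ^ 2 + α * β * (x + c ^ 2 * t) + β ^ 2 * c ^ 2 := by
      linear_combination (β ^ 2 * c ^ 2) * hx
    have eB : (γ + δ * x) * (γ + δ * (c ^ 2 * t)) =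
        γ ^ 2 + γ * δ * (x + c ^ 2 * t) + δ ^ 2 * c ^ 2 := by
      linear_combination (δ ^ 2 * c ^ 2) * hx
    have eK : (γ + δ * x) * (α + β * (c ^ 2 * t)) - c ^ 3 * t ^ 3 * ((α + β * x) * (γ + δ * (c ^ 2 * t))) =
        ((α * γ + β * δ * c ^ 2) * (x + c ^ 2 * t + c) + β * γ * c ^ 2 +
          α * δ * ((x + c ^ 2 * t) ^ 2 + c * (x + c ^ 2 * t) - c ^ 2)) * ((x - c) * t ^ 2) := by
      linear_combination ((-1) * c ^ 2 * t * x * β * δ + (-1) * c ^ 2 * t * β * γ +
        (-2) * c ^ 2 * t ^ 2 * x * α * δ + (-1) * c ^ 2 * t ^ 2 * α * γ + c ^ 3 * t ^ 2 * α * δ +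
        (-1) * c ^ 3 * t ^ 2 * β * γ + (-1) * c ^ 4 * t ^ 2 * β * δ + (-1) * c ^ 4 * t ^ 3 * α * δ +
        (-1) * c ^ 5 * t ^ 3 * β * δ + (-1) * t * x * α * γ + (-1) * t * x ^ 2 * α * δ +
        (-1) * x * α * δ + (-1) * α * γ) * hx
    linear_combination eA - c ^ 3 * y ^ 2 * t ^ 3 * eB + y * eK -
      c ^ 3 * (γ ^ 2 + γ * δ * (x + c ^ 2 * t) + δ ^ 2 * c ^ 2) * e1

/-- The norms lie in the image of the coordinate ring of the elliptic curve. -/
theorem Gens.norm_range (hG : G.Spans) (e' : F) (he' : e' ^ 2 = e ^ 2) (s : B →+* B)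
    (hsF : ∀ c, s (algebraMap F B c) = algebraMap F B c)
    (hsx : s G.x = algebraMap F B (e ^ 2) * G.xi)
    (hsxi : algebraMap F B (e ^ 2) * s G.xi = G.x)
    (hsy : s G.y = - algebraMap F B (e' ^ 3) * G.xi ^ 3 * G.y)
    (φ : CR (cubic a e') →+* B) (hφF : ∀ c, φ (pp (C c)) = algebraMap F B c)
    (hφx : φ (pp X) = algebraMap F B 9 * G.V - algebraMap F B (6 * e'))
    (hφy : φ (yy (cubic a e')) = algebraMap F B 27 *
      ((G.x - algebraMap F B e') * G.y * G.xi ^ 2)) (z : B) :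
    ∃ r, φ r = z * s z := by
  obtain ⟨α, hα, β, hβ, h⟩ := G.norm_mem hG e' he' s hsF hsx hsxi hsy z
  have h9 : algebraMap F B (1 / 9) * algebraMap F B 9 = 1 := by
    rw [← map_mul]; norm_num
  have h27 : algebraMap F B (1 / 27) * algebraMap F B 27 = 1 := by
    rw [← map_mul]; norm_num
  have hS : ∀ a' ∈ G.S, ∃ r, φ r = a' := by
    rintro a' ⟨p, rfl⟩
    refine ⟨pp (p.comp (C (1 / 9) * (X + C (6 * e')))), ?_⟩
    have hcomp : (φ.comp (pp : F[X] →+* CR (cubic a e'))).comp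
        (compRingHom (C (1 / 9) * (X + C (6 * e')))) =
        ((aeval G.V : F[X] →ₐ[F] B) : F[X] →+* B) := by
      apply Polynomial.ringHom_ext
      · intro a
        simp only [RingHom.comp_apply, coe_compRingHom_apply, C_comp, RingHom.coe_coe, aeval_C]
        exact hφF a
      · rw [RingHom.comp_apply, coe_compRingHom_apply, X_comp, RingHom.comp_apply,
          map_mul pp, map_mul φ, map_add pp, map_add φ, hφF, hφF, hφx, sub_add_cancel, ← mul_assoc, h9,
          one_mul]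
        exact (aeval_X _).symm
    exact congrArg (fun f => f p) hcomp
  obtain ⟨r₁, hr₁⟩ := hS α hα
  obtain ⟨r₂, hr₂⟩ := hS β hβ
  refine ⟨r₁ + r₂ * pp (C (1 / 27)) * yy (cubic a e'), ?_⟩
  rw [map_add, map_mul, map_mul, hr₁, hr₂, hφF, hφy, h]
  linear_combination (β * ((G.x - algebraMap F B e') * G.y * G.xi ^ 2)) * h27

end alg

/-! ### The ring -/

section ring

variable {F : Type} [Field F] [CharZero F] (a e : F)

theorem natDegree_quint : (quint a e).natDegree = 5 := by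
  unfold quint; compute_degree!

theorem quint_odd : Odd (quint a e).natDegree := by rw [natDegree_quint]; decide

theorem natDegree_cubic : (cubic a e).natDegree = 3 := by
  unfold cubic; compute_degree!

theorem cubic_odd : Odd (cubic a e).natDegree := by rw [natDegree_cubic]; decide

theorem quint_sqf {a e : F} (he : e ≠ 0) (h1 : a + 2 * e ^ 2 ≠ 0) (h2 : a - 2 * e ^ 2 ≠ 0) :
    Squarefree (quint a e) := by
  apply Polynomial.Separable.squarefree
  obtain ⟨N, hN⟩ : ∃ N : F, N = 2 * (a + 2 * e ^ 2) * (a - 2 * e ^ 2) * e ^ 8 := ⟨_, rfl⟩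
  have hne : N ≠ 0 := by
    rw [hN]
    exact mul_ne_zero (mul_ne_zero (mul_ne_zero (by norm_num) h1) h2) (pow_ne_zero _ he)
  have hder : derivative (quint a e) = C 5 * X ^ 4 + C (3 * a) * X ^ 2 + C (e ^ 4) := by
    unfold quint
    simp only [derivative_add, derivative_mul, derivative_X_pow, derivative_C, derivative_X, zero_mul,
      zero_add, mul_one]
    have e1 : ((5 : ℕ) : F) = 5 := by norm_num
    have e2 : ((3 : ℕ) : F) = 3 := by norm_num
    rw [e1, e2, ← mul_assoc, ← C_mul]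
    congr 3
    congr 1
    ring
  have key : (-(X * (C (15 * a ^ 2 - 50 * e ^ 4) * X ^ 2 + C (9 * a ^ 3 - 35 * a * e ^ 4)))) * quint a e +
      (C (3 * a ^ 2 - 10 * e ^ 4) * X ^ 4 + C (3 * a ^ 3 - 11 * a * e ^ 4) * X ^ 2 +
        C (2 * a ^ 2 * e ^ 4 - 8 * e ^ 8)) * derivative (quint a e) = C N := by
    rw [hder, hN]
    unfold quint
    simp only [C_mul, C_pow, C_ofNat, C_sub, C_add]
    ring
  refine ⟨C N⁻¹ * (-(X * (C (15 * a ^ 2 - 50 * e ^ 4) * X ^ 2 + C (9 * a ^ 3 - 35 * a * e ^ 4)))),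
    C N⁻¹ * (C (3 * a ^ 2 - 10 * e ^ 4) * X ^ 4 + C (3 * a ^ 3 - 11 * a * e ^ 4) * X ^ 2 +
        C (2 * a ^ 2 * e ^ 4 - 8 * e ^ 8)), ?_⟩
  rw [mul_assoc, mul_assoc (C N⁻¹), ← mul_add, key, ← C_mul, inv_mul_cancel₀ hne, C_1]

theorem cubic_sqf {a e : F} (h1 : a + 2 * e ^ 2 ≠ 0) (h2 : a - 2 * e ^ 2 ≠ 0) :
    Squarefree (cubic a e) := by
  apply Polynomial.Separable.squarefree
  obtain ⟨N, hN⟩ : ∃ N : F, N = 2125764 * (a + 2 * e ^ 2) ^ 2 * (a - 2 * e ^ 2) := ⟨_, rfl⟩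
  have hne : N ≠ 0 := by
    rw [hN]
    exact mul_ne_zero (mul_ne_zero (by norm_num) (pow_ne_zero _ h1)) h2
  obtain ⟨p, hp⟩ : ∃ p : F, p = 81 * a - 270 * e ^ 2 := ⟨_, rfl⟩
  obtain ⟨q, hq⟩ : ∃ q : F, q = 108 * e * (14 * e ^ 2 - 9 * a) := ⟨_, rfl⟩
  have hN' : N = 4 * p ^ 3 + 27 * q ^ 2 := by rw [hN, hp, hq]; ring
  have hc : cubic a e = X ^ 3 + C p * X + C q := by unfold cubic; rw [hp, hq]
  have hder : derivative (cubic a e) = C 3 * X ^ 2 + C p := by
    rw [hc]
    simp only [derivative_add, derivative_mul, derivative_X_pow, derivative_C, derivative_X, zero_mul,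
      zero_add, mul_one]
    norm_num
  have key : (C (27 * q) - C (18 * p) * X) * cubic a e +
      (C (6 * p) * X ^ 2 - C (9 * q) * X + C (4 * p ^ 2)) * derivative (cubic a e) = C N := by
    rw [hder, hN', hc]
    simp only [C_mul, C_pow, C_ofNat, C_add]
    ring
  refine ⟨C N⁻¹ * (C (27 * q) - C (18 * p) * X), C N⁻¹ * (C (6 * p) * X ^ 2 - C (9 * q) * X +
    C (4 * p ^ 2)), ?_⟩
  rw [mul_assoc, mul_assoc (C N⁻¹), ← mul_add, key, ← C_mul, inv_mul_cancel₀ hne, C_1]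

theorem ded_quint {a e : F} (he : e ≠ 0) (h1 : a + 2 * e ^ 2 ≠ 0) (h2 : a - 2 * e ^ 2 ≠ 0) :
    IsDedekindDomain (CR (quint a e)) :=
  dedekind (by norm_num) (quint_odd a e) (quint_sqf he h1 h2)

theorem ded_cubic {a e : F} (h1 : a + 2 * e ^ 2 ≠ 0) (h2 : a - 2 * e ^ 2 ≠ 0) :
    IsDedekindDomain (CR (cubic a e)) :=
  dedekind (by norm_num) (cubic_odd a e) (cubic_sqf h1 h2)

theorem ring_id {S : Type} [CommRing S] (ι : F[X] →+* S) (u v : F[X]) :
    ι (X ^ 5 + u * X ^ 3 + v * X) = ι X ^ 5 + ι u * ι X ^ 3 + ι v * ι X := by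
  rw [map_add, map_add, map_mul, map_mul, map_pow, map_pow]

end ring

/-! ### The affine curve without the point `x = 0` -/

section away

variable {F : Type} [Field F] [CharZero F] {k e : F} {B : Type} [CommRing B] [Algebra (CR (quint k e)) B]
  [Algebra F B] [IsScalarTower F (CR (quint k e)) B] [IsLocalization.Away (pp X : CR (quint k e)) B]

variable (k e B) in
/-- The polynomials in `x` as elements of `B`. -/
noncomputable def jj : F[X] →+* B := (algebraMap (CR (quint k e)) B).comp pp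

theorem jj_C (a : F) : jj k e B (C a) = algebraMap F B a :=
  (IsScalarTower.algebraMap_apply F (CR (quint k e)) B a).symm

variable (k e B) in
/-- The generators. -/
noncomputable def gens : Gens B F k e where
  x := jj k e B X
  xi := IsLocalization.Away.invSelf (pp X : CR (quint k e))
  y := algebraMap (CR (quint k e)) B (yy _)
  hx := IsLocalization.Away.mul_invSelf (pp X : CR (quint k e))
  hy := by
    have h : algebraMap (CR (quint k e)) B (yy (quint k e)) ^ 2 = jj k e B (quint k e) := by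
      rw [← map_pow, yy_sq]; rfl
    rw [h, ← jj_C (k := k) (e := e) (B := B), ← jj_C (k := k) (e := e) (B := B)]
    exact ring_id _ _ _

theorem spans (he : e ≠ 0) : (gens k e B).Spans := by
  have hV := (gens k e B).V_mem
  have hc : algebraMap F B (e ^ 2) ∈ (gens k e B).S := (gens k e B).alg_mem _
  -- closure properties
  have hadd : ∀ z w : B, (∃ α ∈ (gens k e B).S, ∃ β ∈ (gens k e B).S, ∃ γ ∈ (gens k e B).S, ∃ δ ∈ (gens k e B).S,
      z = α + β * (gens k e B).x + γ * (gens k e B).y + δ * ((gens k e B).x * (gens k e B).y)) →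
      (∃ α ∈ (gens k e B).S, ∃ β ∈ (gens k e B).S, ∃ γ ∈ (gens k e B).S, ∃ δ ∈ (gens k e B).S,
      w = α + β * (gens k e B).x + γ * (gens k e B).y + δ * ((gens k e B).x * (gens k e B).y)) →
      (∃ α ∈ (gens k e B).S, ∃ β ∈ (gens k e B).S, ∃ γ ∈ (gens k e B).S, ∃ δ ∈ (gens k e B).S,
      z + w = α + β * (gens k e B).x + γ * (gens k e B).y + δ * ((gens k e B).x * (gens k e B).y)) := by
    rintro z w ⟨a, ha, b, hb, c, hc, d, hd, rfl⟩ ⟨a', ha', b', hb', c', hc', d', hd', rfl⟩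
    exact ⟨a + a', add_mem ha ha', b + b', add_mem hb hb', c + c', add_mem hc hc', d + d',
      add_mem hd hd', by ring⟩
  have hmul : ∀ s ∈ (gens k e B).S, ∀ z : B, (∃ α ∈ (gens k e B).S, ∃ β ∈ (gens k e B).S, ∃ γ ∈ (gens k e B).S,
      ∃ δ ∈ (gens k e B).S, z = α + β * (gens k e B).x + γ * (gens k e B).y + δ * ((gens k e B).x * (gens k e B).y)) →
      (∃ α ∈ (gens k e B).S, ∃ β ∈ (gens k e B).S, ∃ γ ∈ (gens k e B).S, ∃ δ ∈ (gens k e B).S,
      s * z = α + β * (gens k e B).x + γ * (gens k e B).y + δ * ((gens k e B).x * (gens k e B).y)) := by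
    rintro s hs z ⟨a, ha, b, hb, c, hc, d, hd, rfl⟩
    exact ⟨s * a, mul_mem hs ha, s * b, mul_mem hs hb, s * c, mul_mem hs hc, s * d, mul_mem hs hd,
      by ring⟩
  have hxm : ∀ z : B, (∃ α ∈ (gens k e B).S, ∃ β ∈ (gens k e B).S, ∃ γ ∈ (gens k e B).S,
      ∃ δ ∈ (gens k e B).S, z = α + β * (gens k e B).x + γ * (gens k e B).y + δ * ((gens k e B).x * (gens k e B).y)) →
      (∃ α ∈ (gens k e B).S, ∃ β ∈ (gens k e B).S, ∃ γ ∈ (gens k e B).S, ∃ δ ∈ (gens k e B).S,
      (gens k e B).x * z = α + β * (gens k e B).x + γ * (gens k e B).y + δ * ((gens k e B).x * (gens k e B).y)) := by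
    rintro z ⟨a, ha, b, hb, c, hc', d, hd, rfl⟩
    refine ⟨-(algebraMap F B (e ^ 2) * b), neg_mem (mul_mem hc hb), a + (gens k e B).V * b,
      add_mem ha (mul_mem hV hb), -(algebraMap F B (e ^ 2) * d), neg_mem (mul_mem hc hd),
      c + (gens k e B).V * d, add_mem hc' (mul_mem hV hd), ?_⟩
    linear_combination (b + d * (gens k e B).y) * (gens k e B).x_sq
  have hxim : ∀ z : B, (∃ α ∈ (gens k e B).S, ∃ β ∈ (gens k e B).S, ∃ γ ∈ (gens k e B).S,
      ∃ δ ∈ (gens k e B).S, z = α + β * (gens k e B).x + γ * (gens k e B).y + δ * ((gens k e B).x * (gens k e B).y)) →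
      (∃ α ∈ (gens k e B).S, ∃ β ∈ (gens k e B).S, ∃ γ ∈ (gens k e B).S, ∃ δ ∈ (gens k e B).S,
      (gens k e B).xi * z = α + β * (gens k e B).x + γ * (gens k e B).y + δ * ((gens k e B).x * (gens k e B).y)) := by
    intro z hz
    have h1 : (gens k e B).xi * z = (algebraMap F B ((e ^ 2)⁻¹) * (gens k e B).V) * z +
        (-algebraMap F B ((e ^ 2)⁻¹)) * ((gens k e B).x * z) := by
      rw [(gens k e B).xi_eq he]; ring
    rw [h1]
    exact hadd _ _ (hmul _ (mul_mem ((gens k e B).alg_mem _) hV) _ hz)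
      (hmul _ (neg_mem ((gens k e B).alg_mem _)) _ (hxm _ hz))
  have hpoly : ∀ (p : F[X]) (z : B), (∃ α ∈ (gens k e B).S, ∃ β ∈ (gens k e B).S, ∃ γ ∈ (gens k e B).S,
      ∃ δ ∈ (gens k e B).S, z = α + β * (gens k e B).x + γ * (gens k e B).y + δ * ((gens k e B).x * (gens k e B).y)) →
      (∃ α ∈ (gens k e B).S, ∃ β ∈ (gens k e B).S, ∃ γ ∈ (gens k e B).S, ∃ δ ∈ (gens k e B).S,
      jj k e B p * z =
        α + β * (gens k e B).x + γ * (gens k e B).y + δ * ((gens k e B).x * (gens k e B).y)) := by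
    intro p z hz
    induction p using Polynomial.induction_on with
    | C a => rw [jj_C (k := k) (e := e) (B := B)]; exact hmul _ ((gens k e B).alg_mem a) z hz
    | add p q hp hq =>
      rw [map_add, add_mul]
      exact hadd _ _ hp hq
    | monomial n a ih =>
      have h1 : jj k e B (C a * X ^ (n + 1)) * z = (gens k e B).x * (jj k e B (C a * X ^ n) * z) := by
        have : (gens k e B).x = jj k e B X := rfl
        rw [this, pow_succ, ← mul_assoc (C a), map_mul]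
        ring
      rw [h1]
      exact hxm _ ih
  have h0 : (0 : B) ∈ (gens k e B).S := zero_mem _
  have h1 : (1 : B) ∈ (gens k e B).S := one_mem _
  intro z
  obtain ⟨⟨a, s⟩, rfl⟩ := IsLocalization.mk'_surjective (Submonoid.powers (pp X : CR (quint k e))) z
  obtain ⟨n, hn⟩ := s.2
  have hz : IsLocalization.mk' B a s = (gens k e B).xi ^ n * algebraMap (CR (quint k e)) B a := by
    rw [IsLocalization.mk'_eq_iff_eq_mul]
    have hn' : algebraMap (CR (quint k e)) B s = (gens k e B).x ^ n := by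
      rw [← hn, map_pow]; rfl
    rw [hn', mul_right_comm, ← mul_pow, mul_comm (gens k e B).xi, (gens k e B).hx, one_pow, one_mul]
  simp only at hz ⊢
  rw [hz]
  have hpow : ∀ (m : ℕ) (z : B), (∃ α ∈ (gens k e B).S, ∃ β ∈ (gens k e B).S, ∃ γ ∈ (gens k e B).S,
      ∃ δ ∈ (gens k e B).S, z = α + β * (gens k e B).x + γ * (gens k e B).y + δ * ((gens k e B).x * (gens k e B).y)) →
      (∃ α ∈ (gens k e B).S, ∃ β ∈ (gens k e B).S, ∃ γ ∈ (gens k e B).S, ∃ δ ∈ (gens k e B).S,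
      (gens k e B).xi ^ m * z = α + β * (gens k e B).x + γ * (gens k e B).y + δ * ((gens k e B).x * (gens k e B).y)) := by
    intro m z hz
    induction m with
    | zero => rwa [pow_zero, one_mul]
    | succ m ih =>
      rw [pow_succ', mul_assoc]
      exact hxim _ ih
  apply hpow
  obtain ⟨p, q, rfl⟩ := exists_el a
  unfold el
  rw [map_add, map_mul]
  refine hadd _ _ ?_ (hpoly q _ ⟨0, h0, 0, h0, 1, h1, 0, h0, ?_⟩)
  · have := hpoly p 1 ⟨1, h1, 0, h0, 0, h0, 0, h0, by ring⟩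
    rwa [mul_one] at this
  · have : (gens k e B).y = algebraMap (CR (quint k e)) B (yy _) := rfl
    rw [this]; ring

end away

end Pool.Agent.K7.H65.G3
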