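import Mathlib

set_option autoImplicit false

/-!
# Ranks of abelian groups
-/

namespace Pool.Agent.K7.H65.G3

open Cardinal

variable {M N P : Type} [AddCommGroup M] [AddCommGroup N] [AddCommGroup P]

/-- a homomorphism whose kernel is a torsion group does not decrease the rank -/
theorem rank_le_of_ker (f : M →ₗ[ℤ] N) (m : ℤ) (hm : m ≠ 0) (hf : ∀ x, f x = 0 → m • x = 0) :
    Module.rank ℤ M ≤ Module.rank ℤ N := by
  rw [Module.rank]
  refine ciSup_le' fun s => ?_
  have hs : LinearIndependent ℤ (fun x : s.1 => (x : M)) := s.2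
  have h2 : LinearIndependent ℤ (f ∘ fun x : s.1 => (x : M)) := by
    refine hs.map ?_
    rw [Submodule.disjoint_def]
    intro x hx hk
    have h3 := hf x hk
    obtain ⟨c, rfl⟩ := (Finsupp.mem_span_range_iff_exists_finsupp).1 hx
    have h4 : Finsupp.linearCombination ℤ (fun x : s.1 => (x : M)) (m • c) = 0 := by
      rw [map_smul]; exact h3
    have h5 := (linearIndependent_iff.1 hs) _ h4
    have h6 : c = 0 := by
      ext i
      have := congrArg (fun g => g i) h5
      simp only [Finsupp.smul_apply, smul_eq_mul, Finsupp.coe_zero, Pi.zero_apply] at this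
      exact (mul_eq_zero.1 this).resolve_left hm
    rw [h6]; simp
  exact h2.cardinal_le_rank

theorem rank_le_of_maps (f : M →+ N) (g : P →+ N) (hf : ∀ x, f x = 0 → (2 : ℤ) • x = 0)
    (hg : ∀ n : N, ∃ p, g p = (2 : ℤ) • n) : Module.rank ℤ M ≤ Module.rank ℤ P := by
  let g' : P →ₗ[ℤ] N := g.toIntLinearMap
  let f' : M →ₗ[ℤ] N := (2 : ℤ) • f.toIntLinearMap
  have h1 : ∀ m, f' m ∈ LinearMap.range g' := by
    intro m
    obtain ⟨p, hp⟩ := hg (f m)
    exact ⟨p, hp⟩
  have h2 := rank_le_of_ker (f'.codRestrict _ h1) 4 (by norm_num) (fun x hx => by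
    have h3 : (2 : ℤ) • f x = 0 := congrArg Subtype.val hx
    have h4 : f ((2 : ℤ) • x) = 0 := by rw [map_zsmul]; exact h3
    have h5 := hf _ h4
    rw [smul_smul] at h5
    exact h5)
  exact h2.trans (rank_range_le g')

theorem rank_prod_le (M P : Type) [AddCommGroup M] [AddCommGroup P] :
    Module.rank ℤ (M × P) ≤ Module.rank ℤ M + Module.rank ℤ P := by
  have h := (LinearMap.fst ℤ M P).rank_range_add_rank_ker
  rw [← h]
  refine add_le_add (Submodule.rank_le _) ?_
  refine rank_le_of_ker ((LinearMap.snd ℤ M P).comp (LinearMap.ker (LinearMap.fst ℤ M P)).subtype) 1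
    one_ne_zero ?_
  rintro ⟨⟨a, b⟩, h1⟩ h2
  have h3 : a = 0 := h1
  have h4 : b = 0 := h2
  subst h3 h4
  rw [one_smul]
  rfl

/-- the final form: finite ranks -/
theorem finrank_le_of_maps {P₁ P₂ : Type} [AddCommGroup P₁] [AddCommGroup P₂] [Module.Finite ℤ P₁]
    [Module.Finite ℤ P₂] (f : M →+ N) (g : P₁ × P₂ →+ N) (hf : ∀ x, f x = 0 → (2 : ℤ) • x = 0)
    (hg : ∀ n : N, ∃ p, g p = (2 : ℤ) • n) : Module.rank ℤ M < ℵ₀ ∧
      Module.finrank ℤ M ≤ Module.finrank ℤ P₁ + Module.finrank ℤ P₂ := by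
  have h1 := (rank_le_of_maps f g hf hg).trans (rank_prod_le P₁ P₂)
  rw [← Module.finrank_eq_rank ℤ P₁, ← Module.finrank_eq_rank ℤ P₂, ← Nat.cast_add] at h1
  refine ⟨h1.trans_lt (natCast_lt_aleph0), ?_⟩
  have h2 := Cardinal.toNat_le_toNat h1 natCast_lt_aleph0
  rwa [Cardinal.toNat_natCast] at h2

end Pool.Agent.K7.H65.G3
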