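import Pool.Agent.K7.H65.G3.Count
import Pool.Agent.K7.H65.G2.Lfun
import Pool.Agent.Y19.QT.DefsK

set_option autoImplicit false
set_option linter.unusedSectionVars false

/-!
# The `L`-function of `y² = x⁵ + a x³ + e⁴ x`
-/

namespace Pool.Agent.K7.H65.G3

open Finset NumberField IsDedekindDomain
open Pool.Agent.Y19.QT (qv av IsLFunK)

section roots

theorem exists_roots (s t : ℂ) : ∃ z w : ℂ, z + w = s ∧ z * w = t := by
  obtain ⟨r, hr⟩ := IsAlgClosed.exists_pow_nat_eq (s ^ 2 - 4 * t) (n := 2) (by norm_num)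
  exact ⟨(s + r) / 2, (s - r) / 2, by ring, by linear_combination (-1 / 4 : ℂ) * hr⟩

theorem factor {q : ℕ} (hq : q ≠ 0) (α β A s : ℂ) (h1 : α + β = A) (h2 : α * β = q) :
    1 - A * (q : ℂ) ^ (-s) + (q : ℂ) ^ (1 - 2 * s) =
      (1 - α * (q : ℂ) ^ (-s)) * (1 - β * (q : ℂ) ^ (-s)) := by
  have hq0 : (q : ℂ) ≠ 0 := by exact_mod_cast hq
  have h3 : (q : ℂ) ^ (1 - 2 * s) = q * ((q : ℂ) ^ (-s)) ^ 2 := by
    have h4 : (1 - 2 * s : ℂ) = 1 + ((2 : ℕ) : ℂ) * (-s) := by push_cast; ring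
    rw [h4, Complex.cpow_add _ _ hq0, Complex.cpow_one, Complex.cpow_nat_mul]
  rw [h3, ← h1, ← h2]
  ring

end roots

section main

variable {K : Type} [Field K] [NumberField K]

/-- the statement on the `L`-function of `X` -/
def IsLX (K : Type) [Field K] (a e D : ℤ) (F : ℂ → ℂ) : Prop :=
  Differentiable ℂ F ∧ ∃ α : HeightOneSpectrum (𝓞 K) → Fin 4 → ℂ,
    (∀ v : HeightOneSpectrum (𝓞 K), ((6 * e * (a ^ 2 - 4 * e ^ 4) * D : ℤ) : 𝓞 K) ∉ v.asIdeal →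
      ∀ n : ℕ, 1 ≤ n → ∀ (E : Type) [Field E] [Finite E] (φ : 𝓞 K →+* E),
        RingHom.ker φ = v.asIdeal → Nat.card E = qv K v ^ n →
          (pts E (a : E) (e : E) : ℂ) = (Nat.card E : ℂ) + 1 - ∑ j, α v j ^ n) ∧
    ∀ s : ℂ, (3 : ℝ) / 2 < s.re → HasProd (fun v : HeightOneSpectrum (𝓞 K) =>
      open Classical in
      if ((6 * e * (a ^ 2 - 4 * e ^ 4) * D : ℤ) : 𝓞 K) ∈ v.asIdeal then 1 else
        (∏ j, (1 - α v j * (qv K v : ℂ) ^ (-s)))⁻¹) (F s)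

theorem qv_eq (v : HeightOneSpectrum (𝓞 K)) : qv K v = G2.q v := G2.q_eq v

theorem qv_pos (v : HeightOneSpectrum (𝓞 K)) : 1 < qv K v := by
  rw [qv_eq]; exact G2.q_pos v

theorem finite_dvd {m : 𝓞 K} (hm : m ≠ 0) : {v : HeightOneSpectrum (𝓞 K) | m ∈ v.asIdeal}.Finite := by
  have h : {v : HeightOneSpectrum (𝓞 K) | v.asIdeal ∣ Ideal.span {m}}.Finite :=
    Ideal.finite_factors (fun h => hm (Ideal.span_singleton_eq_bot.1 h))
  exact h.subset fun v hv => Ideal.dvd_span_singleton.2 hv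

/-- the trace of Frobenius for an odd residue characteristic -/
theorem av_bound (p q : ℤ) (v : HeightOneSpectrum (𝓞 K)) (h2 : (2 : 𝓞 K) ∉ v.asIdeal) :
    |av K p q v| ≤ qv K v ∧ 0 < (qv K v : ℤ) + 1 - av K p q v := by
  classical
  have : v.asIdeal.IsMaximal := v.isMaximal
  let _ : Field (𝓞 K ⧸ v.asIdeal) := Ideal.Quotient.field v.asIdeal
  have : Finite (𝓞 K ⧸ v.asIdeal) := Ideal.finiteQuotientOfFreeOfNeBot _ v.ne_bot
  let _ := Fintype.ofFinite (𝓞 K ⧸ v.asIdeal)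
  have h2k : (2 : 𝓞 K ⧸ v.asIdeal) ≠ 0 := by
    intro h
    apply h2
    rw [← Ideal.Quotient.eq_zero_iff_mem, map_ofNat]
    exact h
  have hF : ringChar (𝓞 K ⧸ v.asIdeal) ≠ 2 := by
    intro h
    apply h2k
    have := ringChar.Nat.cast_ringChar (R := 𝓞 K ⧸ v.asIdeal)
    rw [h] at this
    exact_mod_cast this
  constructor
  · have h := Pool.Agent.H82R3.EK.card_points hF
      (fun x : 𝓞 K ⧸ v.asIdeal => x ^ 3 + (p : 𝓞 K ⧸ v.asIdeal) * x + (q : 𝓞 K ⧸ v.asIdeal))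
    have hav : av K p q v = -∑ x : 𝓞 K ⧸ v.asIdeal, quadraticChar _
        (x ^ 3 + (p : 𝓞 K ⧸ v.asIdeal) * x + (q : 𝓞 K ⧸ v.asIdeal)) := by
      unfold av
      have h' : (Nat.card {x : (𝓞 K ⧸ v.asIdeal) × (𝓞 K ⧸ v.asIdeal) //
          x.2 ^ 2 = x.1 ^ 3 + (p : 𝓞 K ⧸ v.asIdeal) * x.1 + (q : 𝓞 K ⧸ v.asIdeal)} : ℤ) =
          Fintype.card (𝓞 K ⧸ v.asIdeal) + ∑ x : 𝓞 K ⧸ v.asIdeal, quadraticChar _
        (x ^ 3 + (p : 𝓞 K ⧸ v.asIdeal) * x + (q : 𝓞 K ⧸ v.asIdeal)) := h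
      rw [h']
      unfold qv
      rw [Nat.card_eq_fintype_card]
      ring
    rw [hav, abs_neg]
    refine (Finset.abs_sum_le_sum_abs _ _).trans ?_
    refine (Finset.sum_le_card_nsmul _ _ 1 fun x _ => ?_).trans ?_
    · by_cases hx : x ^ 3 + (p : 𝓞 K ⧸ v.asIdeal) * x + (q : 𝓞 K ⧸ v.asIdeal) = 0
      · rw [hx]; simp
      · rcases quadraticChar_dichotomy hx with h | h <;> simp [h]
    · unfold qv
      rw [Nat.card_eq_fintype_card]
      simp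
  · unfold av
    have : (0 : ℤ) ≤ Nat.card {x : (𝓞 K ⧸ v.asIdeal) × (𝓞 K ⧸ v.asIdeal) //
      x.2 ^ 2 = x.1 ^ 3 + (p : 𝓞 K ⧸ v.asIdeal) * x.1 + (q : 𝓞 K ⧸ v.asIdeal)} := Int.natCast_nonneg _
    omega

theorem exists_L (a e D p q : ℤ) (he : e ≠ 0) (hp : p = 81 * a - 270 * e ^ 2)
    (hq : q = 108 * e * (14 * e ^ 2 - 9 * a)) (F₁ F₂ : ℂ → ℂ)
    (hF₁ : IsLFunK K p q D F₁) (hF₂ : IsLFunK K p (-q) D F₂) :
    ∃ F, IsLX K a e D F ∧ analyticOrderAt F 1 = analyticOrderAt F₁ 1 + analyticOrderAt F₂ 1 := by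
  classical
  obtain ⟨hd₁, hP₁⟩ := hF₁
  obtain ⟨hd₂, hP₂⟩ := hF₂
  have hN : 4 * p ^ 3 + 27 * q ^ 2 = 2125764 * (a + 2 * e ^ 2) ^ 2 * (a - 2 * e ^ 2) := by
    rw [hp, hq]; ring
  -- the bad places
  have mem6 : ∀ (v : HeightOneSpectrum (𝓞 K)) (x y : ℤ), ((x * y : ℤ) : 𝓞 K) ∈ v.asIdeal ↔
      (x : 𝓞 K) ∈ v.asIdeal ∨ (y : 𝓞 K) ∈ v.asIdeal := by
    intro v x y
    rw [Int.cast_mul]
    exact v.isPrime.mul_mem_iff_mem_or_mem
  have mempow : ∀ (v : HeightOneSpectrum (𝓞 K)) (x : ℤ) (n : ℕ), n ≠ 0 →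
      (((x ^ n : ℤ) : 𝓞 K) ∈ v.asIdeal ↔ (x : 𝓞 K) ∈ v.asIdeal) := by
    intro v x n hn
    rw [Int.cast_pow]
    exact ⟨fun h => v.isPrime.mem_of_pow_mem _ h, fun h => v.asIdeal.pow_mem_of_mem h n (by omega)⟩
  have hbb : ∀ v : HeightOneSpectrum (𝓞 K), ((2 * (4 * p ^ 3 + 27 * q ^ 2) * D : ℤ) : 𝓞 K) ∈ v.asIdeal ↔
      (((2 : ℤ) : 𝓞 K) ∈ v.asIdeal ∨ ((3 : ℤ) : 𝓞 K) ∈ v.asIdeal ∨
        ((a + 2 * e ^ 2 : ℤ) : 𝓞 K) ∈ v.asIdeal ∨ ((a - 2 * e ^ 2 : ℤ) : 𝓞 K) ∈ v.asIdeal ∨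
        (D : 𝓞 K) ∈ v.asIdeal) := by
    intro v
    have e1 : 2 * (4 * p ^ 3 + 27 * q ^ 2) * D =
        2 ^ 3 * 3 ^ 12 * (a + 2 * e ^ 2) ^ 2 * (a - 2 * e ^ 2) * D := by rw [hN]; ring
    rw [e1, mem6, mem6, mem6, mem6, mempow v _ 3 (by norm_num), mempow v _ 12 (by norm_num),
      mempow v _ 2 (by norm_num)]
    tauto
  have hmb : ∀ v : HeightOneSpectrum (𝓞 K), ((6 * e * (a ^ 2 - 4 * e ^ 4) * D : ℤ) : 𝓞 K) ∈ v.asIdeal ↔
      (((2 * (4 * p ^ 3 + 27 * q ^ 2) * D : ℤ) : 𝓞 K) ∈ v.asIdeal ∨ (e : 𝓞 K) ∈ v.asIdeal) := by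
    intro v
    have e1 : 6 * e * (a ^ 2 - 4 * e ^ 4) * D =
        2 * 3 * e * ((a + 2 * e ^ 2) * (a - 2 * e ^ 2)) * D := by ring
    rw [e1, mem6, mem6, mem6, mem6, mem6, hbb]
    tauto
  have he0 : ((e : ℤ) : 𝓞 K) ≠ 0 := by exact_mod_cast he
  have hfin : {v : HeightOneSpectrum (𝓞 K) |
      ((2 * (4 * p ^ 3 + 27 * q ^ 2) * D : ℤ) : 𝓞 K) ∉ v.asIdeal ∧ (e : 𝓞 K) ∈ v.asIdeal}.Finite :=
    (finite_dvd he0).subset fun v hv => hv.2
  let T : Finset (HeightOneSpectrum (𝓞 K)) := hfin.toFinset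
  have hT : ∀ v, v ∈ T ↔ ((2 * (4 * p ^ 3 + 27 * q ^ 2) * D : ℤ) : 𝓞 K) ∉ v.asIdeal ∧
      (e : 𝓞 K) ∈ v.asIdeal := fun v => by simp [T]
  choose α β hαβ hαβ' using fun v : HeightOneSpectrum (𝓞 K) =>
    exists_roots (av K p q v : ℂ) (qv K v : ℂ)
  choose γ δ hγδ hγδ' using fun v : HeightOneSpectrum (𝓞 K) =>
    exists_roots (av K p (-q) v : ℂ) (qv K v : ℂ)
  have hqv0 : ∀ v : HeightOneSpectrum (𝓞 K), qv K v ≠ 0 := fun v => by have := qv_pos v; omega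
  have h2not : ∀ v : HeightOneSpectrum (𝓞 K),
      ((2 * (4 * p ^ 3 + 27 * q ^ 2) * D : ℤ) : 𝓞 K) ∉ v.asIdeal → (2 : 𝓞 K) ∉ v.asIdeal := by
    intro v hv h
    exact hv ((hbb v).2 (Or.inl (by exact_mod_cast h)))
  have hq3 : ∀ v : HeightOneSpectrum (𝓞 K), (2 : 𝓞 K) ∉ v.asIdeal → (3 : ℝ) ≤ qv K v := by
    intro v hv
    have h5 := qv_pos v
    have h6 : qv K v ≠ 2 := by
      intro h6
      have h7 : ((G2.q v : ℕ) : 𝓞 K) ∈ v.asIdeal := Ideal.absNorm_mem _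
      rw [← qv_eq, h6] at h7
      exact hv (by exact_mod_cast h7)
    have : 3 ≤ qv K v := by omega
    exact_mod_cast this
  -- nonvanishing of the factors
  have hne : ∀ (r : ℤ) (x y : ℂ) (v : HeightOneSpectrum (𝓞 K)), (2 : 𝓞 K) ∉ v.asIdeal →
      x + y = (av K p r v : ℂ) → x * y = (qv K v : ℂ) → ∀ s : ℂ, 3 / 2 < s.re →
      1 - x * (qv K v : ℂ) ^ (-s) ≠ 0 := by
    intro r x y v hv h3 h4 s hs
    have hw : ‖(qv K v : ℂ) ^ (-s)‖ = (qv K v : ℝ) ^ (-s.re) := by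
      rw [Complex.norm_natCast_cpow_of_pos (by have := qv_pos v; omega), Complex.neg_re]
    have hb := (av_bound p r v hv).1
    have hbR : |((av K p r v : ℤ) : ℝ)| ≤ qv K v := by exact_mod_cast hb
    exact G2.root_bound x y (qv K v) (av K p r v) (hq3 v hv) hbR (by rw [h3]; norm_cast)
      (by rw [h4]; norm_cast) s hs _ hw
  let P : HeightOneSpectrum (𝓞 K) → ℂ → ℂ := fun v s =>
    ((1 - α v * (qv K v : ℂ) ^ (-s)) * (1 - β v * (qv K v : ℂ) ^ (-s))) *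
      ((1 - γ v * (qv K v : ℂ) ^ (-s)) * (1 - δ v * (qv K v : ℂ) ^ (-s)))
  have hPd : ∀ v, Differentiable ℂ (P v) := by
    intro v
    have hc : Differentiable ℂ (fun s : ℂ => (qv K v : ℂ) ^ (-s)) :=
      Differentiable.const_cpow differentiable_neg (Or.inl (by exact_mod_cast hqv0 v))
    exact (((differentiable_const _).sub (hc.const_mul _)).mul
      ((differentiable_const _).sub (hc.const_mul _))).mul
      (((differentiable_const _).sub (hc.const_mul _)).mul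
      ((differentiable_const _).sub (hc.const_mul _)))
  have hGd : Differentiable ℂ (fun s => ∏ v ∈ T, P v s) :=
    Differentiable.fun_finsetProd fun v _ => hPd v
  refine ⟨fun s => (F₁ s * F₂ s) * ∏ v ∈ T, P v s,
    ⟨(hd₁.mul hd₂).mul hGd, fun v => ![α v, β v, γ v, δ v], ?_, ?_⟩, ?_⟩
  · intro v hv n hn E _ _ φ hker hE
    have hv' : ((2 * (4 * p ^ 3 + 27 * q ^ 2) * D : ℤ) : 𝓞 K) ∉ v.asIdeal :=
      fun h => hv ((hmb v).2 (Or.inl h))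
    have hev : (e : 𝓞 K) ∉ v.asIdeal := fun h => hv ((hmb v).2 (Or.inr h))
    have : v.asIdeal.IsMaximal := v.isMaximal
    let _ : Field (𝓞 K ⧸ v.asIdeal) := Ideal.Quotient.field v.asIdeal
    have : Finite (𝓞 K ⧸ v.asIdeal) := Ideal.finiteQuotientOfFreeOfNeBot _ v.ne_bot
    have hred : ∀ m : ℤ, (m : 𝓞 K) ∉ v.asIdeal → ((m : ℤ) : 𝓞 K ⧸ v.asIdeal) ≠ 0 := by
      intro m hm h
      apply hm
      rw [← Ideal.Quotient.eq_zero_iff_mem, map_intCast]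
      exact h
    have h2k : (2 : 𝓞 K ⧸ v.asIdeal) ≠ 0 := by
      have := hred 2 (fun h => hv' ((hbb v).2 (Or.inl h)))
      exact_mod_cast this
    have h3k : (3 : 𝓞 K ⧸ v.asIdeal) ≠ 0 := by
      have := hred 3 (fun h => hv' ((hbb v).2 (Or.inr (Or.inl h))))
      exact_mod_cast this
    have hek := hred e hev
    have hk1 : ((a : ℤ) : 𝓞 K ⧸ v.asIdeal) + 2 * ((e : ℤ) : 𝓞 K ⧸ v.asIdeal) ^ 2 ≠ 0 := by
      have := hred (a + 2 * e ^ 2) (fun h => hv' ((hbb v).2 (Or.inr (Or.inr (Or.inl h)))))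
      push_cast at this
      exact this
    have hk2 : ((a : ℤ) : 𝓞 K ⧸ v.asIdeal) - 2 * ((e : ℤ) : 𝓞 K ⧸ v.asIdeal) ^ 2 ≠ 0 := by
      have := hred (a - 2 * e ^ 2) (fun h => hv' ((hbb v).2 (Or.inr (Or.inr (Or.inr (Or.inl h))))))
      push_cast at this
      exact this
    let ψ : 𝓞 K ⧸ v.asIdeal →+* E := Ideal.Quotient.lift v.asIdeal φ (fun a ha => by
      rw [← hker] at ha; exact ha)
    have h9 := pts_eq h2k h3k (a : 𝓞 K ⧸ v.asIdeal) (e : 𝓞 K ⧸ v.asIdeal) hek hk1 hk2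
      (p : 𝓞 K ⧸ v.asIdeal) (q : 𝓞 K ⧸ v.asIdeal) (by rw [hp]; push_cast; ring)
      (by rw [hq]; push_cast; ring) (α v) (β v) (γ v) (δ v) (by
        rw [hαβ]
        unfold av qv
        push_cast
        ring) (hαβ' v) (by
        rw [hγδ]
        unfold av qv
        push_cast
        ring) (hγδ' v) n hn E ψ hE
    rw [map_intCast, map_intCast] at h9
    rw [h9]
    simp only [Fin.sum_univ_four, Matrix.cons_val_zero, Matrix.cons_val_one, Matrix.cons_val]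
  · intro s hs
    have h5 := (hP₁ s hs).mul (hP₂ s hs)
    have h6 : HasProd (fun v => if v ∈ T then P v s else 1) (∏ v ∈ T, P v s) := by
      have h0 : HasProd (fun v => if v ∈ T then P v s else 1) (∏ v ∈ T, if v ∈ T then P v s else 1) :=
        hasProd_prod_of_ne_finset_one (fun b hb => by simp [hb])
      convert h0 using 1
      exact prod_congr rfl fun v hv => by simp [hv]
    have h7 := h5.mul h6
    convert h7 using 1
    funext v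
    have f1 := factor (hqv0 v) (α v) (β v) (av K p q v) s (hαβ v) (hαβ' v)
    have f2 := factor (hqv0 v) (γ v) (δ v) (av K p (-q) v) s (hγδ v) (hγδ' v)
    have hbb2 : ((2 * (4 * p ^ 3 + 27 * (-q) ^ 2) * D : ℤ) : 𝓞 K) ∈ v.asIdeal ↔
        ((2 * (4 * p ^ 3 + 27 * q ^ 2) * D : ℤ) : 𝓞 K) ∈ v.asIdeal := by rw [neg_sq]
    by_cases hb : ((2 * (4 * p ^ 3 + 27 * q ^ 2) * D : ℤ) : 𝓞 K) ∈ v.asIdeal
    · have hm := (hmb v).2 (Or.inl hb)
      have hvT : v ∉ T := fun h => ((hT v).1 h).1 hb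
      rw [if_pos hm, if_pos hb, if_pos (hbb2.2 hb), if_neg hvT]
      norm_num
    · rw [if_neg hb, if_neg (fun h => hb (hbb2.1 h)), f1, f2]
      by_cases hev : (e : 𝓞 K) ∈ v.asIdeal
      · have hm := (hmb v).2 (Or.inr hev)
        have hvT : v ∈ T := (hT v).2 ⟨hb, hev⟩
        rw [if_pos hm, if_pos hvT]
        have n1 := hne q (α v) (β v) v (h2not v hb) (hαβ v) (hαβ' v) s hs
        have n2 := hne q (β v) (α v) v (h2not v hb) (by rw [add_comm]; exact hαβ v)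
          (by rw [mul_comm]; exact hαβ' v) s hs
        have n3 := hne (-q) (γ v) (δ v) v (h2not v hb) (hγδ v) (hγδ' v) s hs
        have n4 := hne (-q) (δ v) (γ v) v (h2not v hb) (by rw [add_comm]; exact hγδ v)
          (by rw [mul_comm]; exact hγδ' v) s hs
        rw [← mul_inv]
        exact (inv_mul_cancel₀ (mul_ne_zero (mul_ne_zero n1 n2) (mul_ne_zero n3 n4))).symm
      · have hm : ¬ ((6 * e * (a ^ 2 - 4 * e ^ 4) * D : ℤ) : 𝓞 K) ∈ v.asIdeal := by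
          rw [hmb]; tauto
        have hvT : v ∉ T := fun h => hev ((hT v).1 h).2
        rw [if_neg hm, if_neg hvT, mul_one, ← mul_inv]
        congr 1
        simp only [Fin.prod_univ_four, Matrix.cons_val_zero, Matrix.cons_val_one, Matrix.cons_val]
        ring
  · have hG1 : (∏ v ∈ T, P v 1) ≠ 0 := by
      refine prod_ne_zero_iff.2 fun v hv => ?_
      have h2v := h2not v ((hT v).1 hv).1
      have hq0 : (qv K v : ℂ) ≠ 0 := by exact_mod_cast hqv0 v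
      have key : ∀ (r : ℤ) (x y : ℂ), x + y = (av K p r v : ℂ) → x * y = (qv K v : ℂ) →
          (1 - x * (qv K v : ℂ) ^ (-1 : ℂ)) * (1 - y * (qv K v : ℂ) ^ (-1 : ℂ)) ≠ 0 := by
        intro r x y h3 h4
        rw [Complex.cpow_neg_one]
        have h5 : (1 - x * (qv K v : ℂ)⁻¹) * (1 - y * (qv K v : ℂ)⁻¹) =
            (((qv K v : ℤ) + 1 - av K p r v : ℤ) : ℂ) / qv K v := by
          have h6 : (1 - x * (qv K v : ℂ)⁻¹) * (1 - y * (qv K v : ℂ)⁻¹) =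
              1 - (x + y) * (qv K v : ℂ)⁻¹ + (x * y) * (qv K v : ℂ)⁻¹ ^ 2 := by ring
          rw [h6, h3, h4]
          push_cast
          field_simp
          ring
        rw [h5]
        refine div_ne_zero ?_ hq0
        have := (av_bound p r v h2v).2
        exact_mod_cast this.ne'
      exact mul_ne_zero (key q _ _ (hαβ v) (hαβ' v)) (key (-q) _ _ (hγδ v) (hγδ' v))
    have a1 : AnalyticAt ℂ F₁ 1 := hd₁.analyticAt 1
    have a2 : AnalyticAt ℂ F₂ 1 := hd₂.analyticAt 1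
    have a3 : AnalyticAt ℂ (fun s => ∏ v ∈ T, P v s) 1 := hGd.analyticAt 1
    have o3 : analyticOrderAt (fun s => ∏ v ∈ T, P v s) 1 = 0 := (a3.analyticOrderAt_eq_zero).2 hG1
    have h := analyticOrderAt_mul (a1.mul a2) a3
    rw [analyticOrderAt_mul a1 a2, o3, add_zero] at h
    exact h

end main

end Pool.Agent.K7.H65.G3
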