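import Pool.Agent.K7.H65.G3.Invol
import Pool.Agent.K7.H65.G3.Cls
import Pool.Agent.K7.H65.G3.Grp
import Pool.Agent.K7.H65.G2.Expo

set_option autoImplicit false
set_option linter.unusedSectionVars false

/-!
# The rank of the class group of `y² = x⁵ + k x³ + e⁴ x`
-/

namespace Pool.Agent.K7.H65.G3

open Polynomial Pool.Agent.TH943.HJ
open scoped nonZeroDivisors

section away

variable {F : Type} [Field F] [CharZero F] {k e : F} {B : Type} [CommRing B]
  [Algebra (CR (quint k e)) B]
  [Algebra F B] [IsScalarTower F (CR (quint k e)) B] [IsLocalization.Away (pp X : CR (quint k e)) B]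

/-! ### The maps to the elliptic curves -/

variable (k e B) in
/-- the `x`-coordinate -/
noncomputable def baseE (e' : F) : F[X] →+* B :=
  eval₂RingHom (algebraMap F B) (algebraMap F B 9 * (gens k e B).V - algebraMap F B (6 * e'))

theorem baseE_C (e' a : F) : baseE k e B e' (C a) = algebraMap F B a := by
  unfold baseE; simp

theorem baseE_X (e' : F) : baseE k e B e' X =
    algebraMap F B 9 * (gens k e B).V - algebraMap F B (6 * e') := by
  unfold baseE; simp

theorem sqE (e' : F) (he' : e' ^ 2 = e ^ 2) :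
    (algebraMap F B 27 * (((gens k e B).x - algebraMap F B e') * (gens k e B).y *
      (gens k e B).xi ^ 2)) ^ 2 = baseE k e B e' (cubic k e') := by
  have hq : baseE k e B e' (cubic k e') = baseE k e B e' X ^ 3 +
      baseE k e B e' (C (81 * k - 270 * e' ^ 2)) * baseE k e B e' X +
      baseE k e B e' (C (108 * e' * (14 * e' ^ 2 - 9 * k))) := by
    unfold cubic
    rw [map_add, map_add, map_mul, map_pow]
  rw [hq, baseE_C, baseE_C, baseE_X]
  have hx := (gens k e B).hx
  have hy := (gens k e B).hy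
  have hV : (gens k e B).V = (gens k e B).x + algebraMap F B (e ^ 2) * (gens k e B).xi := rfl
  have h4 : algebraMap F B (e ^ 4) = algebraMap F B e' ^ 4 := by
    rw [← map_pow]; congr 1
    calc e ^ 4 = (e ^ 2) ^ 2 := by ring
      _ = (e' ^ 2) ^ 2 := by rw [he']
      _ = e' ^ 4 := by ring
  have h2 : algebraMap F B (e ^ 2) = algebraMap F B e' ^ 2 := by rw [← map_pow, he']
  have h5 : algebraMap F B (81 * k - 270 * e' ^ 2) =
      81 * algebraMap F B k - 270 * algebraMap F B e' ^ 2 := by
    simp only [map_sub, map_mul, map_pow, map_ofNat]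
  have h6 : algebraMap F B (108 * e' * (14 * e' ^ 2 - 9 * k)) =
      108 * algebraMap F B e' * (14 * algebraMap F B e' ^ 2 - 9 * algebraMap F B k) := by
    simp only [map_sub, map_mul, map_pow, map_ofNat]
  have h7 : algebraMap F B (6 * e') = 6 * algebraMap F B e' := by rw [map_mul, map_ofNat]
  rw [hV, h5, h6, h7, h2, map_ofNat, map_ofNat]
  rw [h4] at hy
  generalize algebraMap F B k = a at *
  generalize algebraMap F B e' = c at *
  generalize (gens k e B).x = x at *
  generalize (gens k e B).xi = t at *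
  generalize (gens k e B).y = y at *
  have h6' : x ^ 3 * t ^ 3 = 1 := by rw [← mul_pow, hx, one_pow]
  have e1 : y ^ 2 * t ^ 3 = (x + c ^ 2 * t) ^ 2 + a - 2 * c ^ 2 := by
    rw [hy]
    linear_combination (x ^ 2 + a) * h6' + (c ^ 4 * t ^ 2 - 2 * c ^ 2) * hx
  have e2 : (x - c) ^ 2 * t = x + c ^ 2 * t - 2 * c := by
    linear_combination (x - 2 * c) * hx
  have e3 : (27 * ((x - c) * y * t ^ 2)) ^ 2 =
      729 * ((x + c ^ 2 * t - 2 * c) * ((x + c ^ 2 * t) ^ 2 + a - 2 * c ^ 2)) := by
    rw [← e1, ← e2]; ring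
  rw [e3]
  ring

theorem evalE (e' : F) (he' : e' ^ 2 = e ^ 2) :
    (X ^ 2 - C (cubic k e') : F[X][X]).eval₂ (baseE k e B e')
    (algebraMap F B 27 * (((gens k e B).x - algebraMap F B e') * (gens k e B).y *
      (gens k e B).xi ^ 2)) = 0 := by
  rw [eval₂_sub, eval₂_pow, eval₂_X, eval₂_C, sqE e' he', sub_self]

variable (k B) in
/-- The map to the elliptic curve. -/
noncomputable def phi (e' : F) (he' : e' ^ 2 = e ^ 2) : CR (cubic k e') →+* B :=
  AdjoinRoot.lift (baseE k e B e') _ (evalE (k := k) e' he')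

theorem phi_pp (e' : F) (he' : e' ^ 2 = e ^ 2) (p : F[X]) : phi k B e' he' (pp p) = baseE k e B e' p :=
  AdjoinRoot.lift_of (i := baseE k e B e') (h := evalE (k := k) e' he') (x := p)

theorem phi_yy (e' : F) (he' : e' ^ 2 = e ^ 2) : phi k B e' he' (yy (cubic k e')) =
    algebraMap F B 27 * (((gens k e B).x - algebraMap F B e') * (gens k e B).y *
      (gens k e B).xi ^ 2) :=
  AdjoinRoot.lift_root (i := baseE k e B e') (evalE (k := k) e' he')

theorem norm_sig (he : e ≠ 0) (e' : F) (he' : e' ^ 2 = e ^ 2) (z : B) :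
    ∃ r, phi k B e' he' r = z * sig k B he e' he' z :=
  (gens k e B).norm_range (spans he) e' he' _ (sig_F he e' he') (sig_x he e' he') (sig_xi he e' he')
    (sig_y he e' he') (phi k B e' he') (fun a => by rw [phi_pp, baseE_C])
    (by rw [phi_pp, baseE_X]) (phi_yy e' he') z

/-! ### Injectivity -/

theorem jj_inj [IsDomain B] (h0 : (pp X : CR (quint k e)) ∈ nonZeroDivisors _) :
    Function.Injective (jj k e B) := by
  have h1 : Function.Injective (algebraMap (CR (quint k e)) B) :=
    IsLocalization.injective B (M := Submonoid.powers (pp X : CR (quint k e)))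
      (Submonoid.powers_le.2 h0)
  exact h1.comp pp_inj

theorem x_not_integral [IsDomain B] (h0 : (pp X : CR (quint k e)) ∈ nonZeroDivisors _) :
    ¬ IsIntegral F (gens k e B).x := by
  rintro ⟨p, hp, hpx⟩
  have h1 : ∀ q : F[X], eval₂ (algebraMap F B) (gens k e B).x q = jj k e B q := by
    intro q
    have h2 : (eval₂RingHom (algebraMap F B) (gens k e B).x) = jj k e B := by
      apply Polynomial.ringHom_ext
      · intro a; rw [jj_C (k := k) (e := e) (B := B)]; simp
      · simp; rfl
    rw [← h2]; rfl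
  rw [h1] at hpx
  exact hp.ne_zero (jj_inj (B := B) h0 (by rw [hpx, map_zero]))

theorem phi_inj [IsDomain B] (h0 : (pp X : CR (quint k e)) ∈ nonZeroDivisors _) (e' : F)
    (he' : e' ^ 2 = e ^ 2) : Function.Injective (phi k B e' he') := by
  -- `V` is not integral over `F`
  have hV : ¬ IsIntegral F (gens k e B).V := by
    intro hV
    apply x_not_integral (B := B) h0
    have hVm : (gens k e B).V ∈ integralClosure F B := hV
    have hcm : algebraMap F B (e ^ 2) ∈ integralClosure F B := isIntegral_algebraMap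
    have h2 : IsIntegral (integralClosure F B) (gens k e B).x := by
      refine ⟨X ^ 2 - C (⟨_, hVm⟩ : integralClosure F B) * X + C (⟨_, hcm⟩ : integralClosure F B), ?_, ?_⟩
      · monicity!
      · simp only [eval₂_add, eval₂_sub, eval₂_mul, eval₂_pow, eval₂_X, eval₂_C]
        have h3 := (gens k e B).x_sq
        show (gens k e B).x ^ 2 - (gens k e B).V * (gens k e B).x + algebraMap F B (e ^ 2) = 0
        rw [h3]; ring
    exact isIntegral_trans (A := integralClosure F B) _ h2
  have hbase : ∀ p : F[X], baseE k e B e' p = 0 → p = 0 := by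
    intro p hp
    by_contra hp0
    apply hV
    have h1 : IsIntegral F (algebraMap F B 9 * (gens k e B).V - algebraMap F B (6 * e')) := by
      rw [← isAlgebraic_iff_isIntegral]
      exact ⟨p, hp0, hp⟩
    have h2 : (gens k e B).V = algebraMap F B (1 / 9) *
        ((algebraMap F B 9 * (gens k e B).V - algebraMap F B (6 * e')) + algebraMap F B (6 * e')) := by
      have h9 : algebraMap F B (1 / 9) * algebraMap F B 9 = 1 := by
        rw [← map_mul]; norm_num
      linear_combination (-(gens k e B).V) * h9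
    rw [h2]
    exact isIntegral_algebraMap.mul (h1.add isIntegral_algebraMap)
  rw [injective_iff_map_eq_zero]
  intro z hz
  obtain ⟨p, q, rfl⟩ := exists_el z
  have h1 : phi k B e' he' (el p q * cj _ (el p q)) = 0 := by rw [map_mul, hz, zero_mul]
  rw [el_mul_cj, phi_pp] at h1
  have h2 := hbase _ h1
  obtain ⟨rfl, rfl⟩ := norm_ne (cubic_odd k e') h2
  unfold el
  rw [map_zero, zero_mul, add_zero]

/-! ### The projective line -/

theorem jj_unit : IsUnit (jj k e B X) := IsLocalization.Away.algebraMap_isUnit (pp X : CR (quint k e))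

variable (k e B) in
/-- The inclusion of `F[x, 1 / x]`. -/
noncomputable def phi0 : G2.LA F →+* B :=
  IsLocalization.Away.lift (X : F[X]) (jj_unit (k := k) (e := e) (B := B))

theorem phi0_alg (p : F[X]) : phi0 k e B (algebraMap F[X] (G2.LA F) p) = jj k e B p :=
  IsLocalization.Away.lift_eq _ _ _

theorem norm_tau (z : B) : ∃ r, phi0 k e B r = z * tau k e B z := by
  obtain ⟨⟨a, s⟩, rfl⟩ :=
    IsLocalization.mk'_surjective (Submonoid.powers (pp X : CR (quint k e))) z
  obtain ⟨n, hn⟩ := s.2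
  have hx := (gens k e B).hx
  have hz : IsLocalization.mk' B a s = (gens k e B).xi ^ n * algebraMap (CR (quint k e)) B a := by
    rw [IsLocalization.mk'_eq_iff_eq_mul]
    have hn' : algebraMap (CR (quint k e)) B s = (gens k e B).x ^ n := by
      rw [← hn, map_pow]; rfl
    rw [hn', mul_right_comm, ← mul_pow, mul_comm (gens k e B).xi, (gens k e B).hx, one_pow, one_mul]
  simp only at hz ⊢
  rw [hz, map_mul, map_pow, tau_xi, tau_alg]
  obtain ⟨p, q, rfl⟩ := exists_el a
  have h1 : algebraMap (CR (quint k e)) B (el p q) * algebraMap (CR (quint k e)) B (cj _ (el p q)) =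
      jj k e B (p ^ 2 - quint k e * q ^ 2) := by
    rw [← map_mul, el_mul_cj]; rfl
  have h2 : phi0 k e B (IsLocalization.Away.invSelf (X : F[X])) = (gens k e B).xi := by
    have h3 : phi0 k e B (algebraMap F[X] (G2.LA F) X) *
        phi0 k e B (IsLocalization.Away.invSelf (X : F[X])) = 1 := by
      rw [← map_mul, IsLocalization.Away.mul_invSelf, map_one]
    rw [phi0_alg] at h3
    have h4 : jj k e B X = (gens k e B).x := rfl
    rw [h4] at h3
    linear_combination (gens k e B).xi * h3 - phi0 k e B (IsLocalization.Away.invSelf (X : F[X])) * hx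
  refine ⟨IsLocalization.Away.invSelf (X : F[X]) ^ (2 * n) *
    algebraMap F[X] (G2.LA F) (p ^ 2 - quint k e * q ^ 2), ?_⟩
  rw [map_mul, map_pow, h2, phi0_alg, ← h1, pow_mul, pow_right_comm]
  ring

/-! ### Twice the classes come from the elliptic curves -/

variable (B) in
theorem exists_hom [IsDedekindDomain B] (he : e ≠ 0) (h1 : k + 2 * e ^ 2 ≠ 0) (h2 : k - 2 * e ^ 2 ≠ 0)
    (h0 : (pp X : CR (quint k e)) ∈ nonZeroDivisors _) (p₁ p₂ : F[X][X])
    (hp₁ : p₁ = X ^ 2 - C (cubic k e)) (hp₂ : p₂ = X ^ 2 - C (cubic k (-e)))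
    [IsDomain (AdjoinRoot p₁)] [IsDomain (AdjoinRoot p₂)] :
    ∃ g : Additive (ClassGroup (AdjoinRoot p₁)) × Additive (ClassGroup (AdjoinRoot p₂)) →+
      Additive (ClassGroup B), ∀ n, ∃ p, g p = (2 : ℤ) • n := by
  subst hp₁ hp₂
  have hneg : (-e) ^ 2 = e ^ 2 := by ring
  have hd₁ : IsDedekindDomain (CR (cubic k e)) := ded_cubic h1 h2
  have hd₂ : IsDedekindDomain (CR (cubic k (-e))) := ded_cubic (by rw [hneg]; exact h1)
    (by rw [hneg]; exact h2)
  let _ : Algebra (CR (cubic k e)) B := (phi k B e rfl).toAlgebra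
  let _ : Algebra (CR (cubic k (-e))) B := (phi k B (-e) hneg).toAlgebra
  have hi₁ : Function.Injective (algebraMap (CR (cubic k e)) B) := phi_inj h0 e rfl
  have hi₂ : Function.Injective (algebraMap (CR (cubic k (-e))) B) := phi_inj h0 (-e) hneg
  have : FaithfulSMul (CR (cubic k e)) B := (faithfulSMul_iff_algebraMap_injective _ _).2 hi₁
  have : FaithfulSMul (CR (cubic k (-e))) B := (faithfulSMul_iff_algebraMap_injective _ _).2 hi₂
  have : Module.IsTorsionFree (CR (cubic k e)) B := inferInstance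
  have : Module.IsTorsionFree (CR (cubic k (-e))) B := inferInstance
  refine ⟨(ClassGroup.extendedHom (CR (cubic k e)) B).toAdditive.coprod
    (ClassGroup.extendedHom (CR (cubic k (-e))) B).toAdditive, ?_⟩
  intro n
  obtain ⟨c₁, c₂, hc⟩ := sq_class (R₁ := CR (cubic k e)) (R₂ := CR (cubic k (-e))) (phi0 k e B)
    (σ₁ := RingEquiv.ofRingHom (sig k B he e rfl) (sig k B he e rfl)
      (RingHom.ext (sig_sig he e rfl)) (RingHom.ext (sig_sig he e rfl)))
    (σ₂ := RingEquiv.ofRingHom (sig k B he (-e) hneg) (sig k B he (-e) hneg)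
      (RingHom.ext (sig_sig he (-e) hneg)) (RingHom.ext (sig_sig he (-e) hneg)))
    (τ := RingEquiv.ofRingHom (tau k e B) (tau k e B) (RingHom.ext tau_tau) (RingHom.ext tau_tau))
    (sig_sig he e rfl) (sig_sig he (-e) hneg) tau_tau (sig_tau he) (norm_sig he e rfl)
    (norm_sig he (-e) hneg) norm_tau n.toMul
  refine ⟨(Additive.ofMul c₁, Additive.ofMul c₂), ?_⟩
  rw [AddMonoidHom.coprod_apply]
  apply Additive.toMul.injective
  have h3 : Additive.toMul ((2 : ℤ) • n) = n.toMul ^ 2 := by
    rw [two_zsmul]; exact (sq _).symm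
  rw [h3, hc]
  rfl

end away

/-! ### The point `(0, 0)` -/

section desc

variable {F : Type} [Field F] [CharZero F] {k e : F}

variable (k e) in
/-- The ideal of the point `(0, 0)`. -/
noncomputable def P0 : Ideal (CR (quint k e)) := Ideal.span {pp X, yy (quint k e)}

variable (k e) in
theorem ev_eq : (X ^ 2 - C (quint k e) : F[X][X]).eval₂ (evalRingHom (0 : F)) 0 = 0 := by
  rw [eval₂_sub, eval₂_pow, eval₂_X, eval₂_C]
  unfold quint
  simp

variable (k e) in
/-- The value at `(0, 0)`. -/
noncomputable def ev0 : CR (quint k e) →+* F := AdjoinRoot.lift (evalRingHom (0 : F)) 0 (ev_eq k e)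

theorem ev0_pp (p : F[X]) : ev0 k e (pp p) = p.eval 0 :=
  AdjoinRoot.lift_of (i := evalRingHom (0 : F)) (h := ev_eq k e) (x := p)

theorem ev0_yy : ev0 k e (yy (quint k e)) = 0 :=
  AdjoinRoot.lift_root (i := evalRingHom (0 : F)) (ev_eq k e)

theorem P0_eq : P0 k e = RingHom.ker (ev0 k e) := by
  apply le_antisymm
  · unfold P0
    rw [Ideal.span_le]
    rintro z (rfl | rfl)
    · show ev0 k e (pp X) = 0
      rw [ev0_pp, eval_X]
    · exact ev0_yy
  · intro z hz
    obtain ⟨p, q, rfl⟩ := exists_el z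
    rw [RingHom.mem_ker] at hz
    unfold el at hz ⊢
    rw [map_add, map_mul, ev0_pp, ev0_pp, ev0_yy, mul_zero, add_zero] at hz
    obtain ⟨p', rfl⟩ := (Polynomial.X_dvd_iff (f := p)).2 (by rw [coeff_zero_eq_eval_zero]; exact hz)
    refine add_mem ?_ ?_
    · rw [map_mul]
      exact Ideal.mul_mem_right _ _ (Ideal.subset_span (by simp))
    · exact Ideal.mul_mem_left _ _ (Ideal.subset_span (by simp))

theorem P0_prime : (P0 k e).IsPrime := by
  rw [P0_eq]; exact RingHom.ker_isPrime _

theorem P0_sq (he : e ≠ 0) : P0 k e ^ 2 = Ideal.span {pp X} := by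
  have hy := yy_sq (quint k e)
  have hq : (pp (quint k e) : CR (quint k e)) = pp X ^ 5 + pp (C k) * pp X ^ 3 +
      pp (C (e ^ 4)) * pp X := ring_id _ _ _
  rw [hq] at hy
  rw [pow_two (P0 k e)]
  unfold P0
  rw [Ideal.span_pair_mul_span_pair]
  apply le_antisymm
  · rw [Ideal.span_le]
    rintro z (rfl | rfl | rfl | rfl)
    · exact Ideal.mem_span_singleton.2 (Dvd.intro _ rfl)
    · exact Ideal.mem_span_singleton.2 (Dvd.intro _ rfl)
    · exact Ideal.mem_span_singleton.2 (Dvd.intro_left _ rfl)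
    · refine Ideal.mem_span_singleton.2 ⟨pp X ^ 4 + pp (C k) * pp X ^ 2 +
        pp (C (e ^ 4)), ?_⟩
      linear_combination hy
  · rw [Ideal.span_singleton_le_iff_mem]
    have hne : (e ^ 4 : F) ≠ 0 := pow_ne_zero 4 he
    have hu : (pp (C (e ^ 4)⁻¹) : CR (quint k e)) * pp (C (e ^ 4)) = 1 := by
      rw [← map_mul, ← C_mul, inv_mul_cancel₀ hne, C_1, map_one]
    have h1 : (pp X : CR (quint k e)) = pp (C (e ^ 4)⁻¹) * (yy (quint k e) * yy (quint k e)) +
        (-pp (C (e ^ 4)⁻¹) * (pp X ^ 3 + pp (C k) * pp X)) * (pp X * pp X) := by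
      linear_combination (-pp (C (e ^ 4)⁻¹)) * hy + (-pp X) * hu
    have hxx : pp X * pp X ∈ Ideal.span {pp X * pp X, pp X * yy (quint k e), yy (quint k e) * pp X,
        yy (quint k e) * yy (quint k e)} := Ideal.subset_span (by simp)
    have hyy : yy (quint k e) * yy (quint k e) ∈ Ideal.span {pp X * pp X, pp X * yy (quint k e),
        yy (quint k e) * pp X, yy (quint k e) * yy (quint k e)} := Ideal.subset_span (by simp)
    generalize Ideal.span {pp X * pp X, pp X * yy (quint k e), yy (quint k e) * pp X,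
        yy (quint k e) * yy (quint k e)} = S at hxx hyy ⊢
    rw [h1]
    exact add_mem (Ideal.mul_mem_left _ _ hyy) (Ideal.mul_mem_left _ _ hxx)

/-! ### The rank -/

/-- `y² = x³ + p x + q` -/
noncomputable def ellS (p q : F) : WeierstrassCurve.Affine F :=
  WeierstrassCurve.toAffine { a₁ := 0, a₂ := 0, a₃ := 0, a₄ := p, a₆ := q }

theorem ellS_poly (p q : F) : (ellS p q).polynomial = X ^ 2 - C (X ^ 3 + C p * X + C q) := by
  unfold WeierstrassCurve.Affine.polynomial ellS WeierstrassCurve.toAffine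
  simp

theorem ellS_disc (p q : F) : (ellS p q).Δ = -16 * (4 * p ^ 3 + 27 * q ^ 2) := by
  unfold ellS WeierstrassCurve.toAffine WeierstrassCurve.Δ WeierstrassCurve.b₂ WeierstrassCurve.b₄
    WeierstrassCurve.b₆ WeierstrassCurve.b₈
  ring

open Cardinal in
/-- **The rank of the class group of the affine curve `y² = x⁵ + k x³ + e⁴ x`.** -/
theorem rank_class [DecidableEq F] (he : e ≠ 0) (h1 : k + 2 * e ^ 2 ≠ 0) (h2 : k - 2 * e ^ 2 ≠ 0)
    [IsDomain (CR (quint k e))] (W₁ W₂ : WeierstrassCurve.Affine F)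
    (hW₁ : W₁ = ellS (81 * k - 270 * e ^ 2) (108 * e * (14 * e ^ 2 - 9 * k)))
    (hW₂ : W₂ = ellS (81 * k - 270 * e ^ 2) (-(108 * e * (14 * e ^ 2 - 9 * k))))
    [Module.Finite ℤ W₁.Point] [Module.Finite ℤ W₂.Point] :
    Module.rank ℤ (Additive (ClassGroup (CR (quint k e)))) < ℵ₀ ∧
    Module.finrank ℤ (Additive (ClassGroup (CR (quint k e)))) ≤
      Module.finrank ℤ W₁.Point + Module.finrank ℤ W₂.Point := by
  have hdisc : ∀ s : F, s ^ 2 = 1 → 4 * (81 * k - 270 * e ^ 2) ^ 3 +
      27 * (s * (108 * e * (14 * e ^ 2 - 9 * k))) ^ 2 ≠ 0 := by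
    intro s hs
    have : 4 * (81 * k - 270 * e ^ 2) ^ 3 + 27 * (s * (108 * e * (14 * e ^ 2 - 9 * k))) ^ 2 =
        2125764 * (k + 2 * e ^ 2) ^ 2 * (k - 2 * e ^ 2) := by
      linear_combination (27 * (108 * e * (14 * e ^ 2 - 9 * k)) ^ 2) * hs
    rw [this]
    exact mul_ne_zero (mul_ne_zero (by norm_num) (pow_ne_zero _ h1)) h2
  have hp₁ : W₁.polynomial = X ^ 2 - C (cubic k e) := by rw [hW₁, ellS_poly]; rfl
  have hp₂ : W₂.polynomial = X ^ 2 - C (cubic k (-e)) := by
    rw [hW₂, ellS_poly]
    unfold cubic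
    congr 4
    · congr 2; ring
    · ring
  have hΔ₁ : W₁.Δ ≠ 0 := by
    rw [hW₁, ellS_disc]
    have := hdisc 1 (by norm_num)
    rw [one_mul] at this
    exact mul_ne_zero (by norm_num) this
  have hΔ₂ : W₂.Δ ≠ 0 := by
    rw [hW₂, ellS_disc]
    have := hdisc (-1) (by norm_num)
    rw [neg_one_mul] at this
    exact mul_ne_zero (by norm_num) this
  have := ded_quint he h1 h2
  have hx0 : (pp X : CR (quint k e)) ≠ 0 := by
    intro h
    exact X_ne_zero (pp_inj (by rw [h, map_zero]))
  have h0 : (pp X : CR (quint k e)) ∈ nonZeroDivisors _ := mem_nonZeroDivisors_of_ne_zero hx0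
  have hM : Submonoid.powers (pp X : CR (quint k e)) ≤ nonZeroDivisors _ := Submonoid.powers_le.2 h0
  have : IsDomain (Localization.Away (pp X : CR (quint k e))) :=
    IsLocalization.isDomain_localization hM
  have : IsDedekindDomain (Localization.Away (pp X : CR (quint k e))) :=
    IsLocalization.isDedekindDomain (CR (quint k e)) hM _
  have : FaithfulSMul (CR (quint k e)) (Localization.Away (pp X : CR (quint k e))) :=
    (faithfulSMul_iff_algebraMap_injective _ _).2 (IsLocalization.injective _ hM)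
  have : Module.IsTorsionFree (CR (quint k e)) (Localization.Away (pp X : CR (quint k e))) :=
    inferInstance
  obtain ⟨g, hg⟩ := exists_hom (Localization.Away (pp X : CR (quint k e))) he h1 h2 h0
    W₁.polynomial W₂.polynomial hp₁ hp₂
  have hns : ∀ (W : WeierstrassCurve.Affine F), W.Δ ≠ 0 → ∀ x y : F, W.Equation x y →
      W.Nonsingular x y :=
    fun W hΔ x y h => (WeierstrassCurve.Affine.equation_iff_nonsingular_of_Δ_ne_zero hΔ).1 h
  have hd₁ : IsDedekindDomain W₁.CoordinateRing := by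
    have key : ∀ p : F[X][X], p = X ^ 2 - C (cubic k e) → IsDedekindDomain (AdjoinRoot p) := by
      rintro p rfl; exact ded_cubic h1 h2
    exact key _ hp₁
  have hd₂ : IsDedekindDomain W₂.CoordinateRing := by
    have key : ∀ p : F[X][X], p = X ^ 2 - C (cubic k (-e)) → IsDedekindDomain (AdjoinRoot p) := by
      rintro p rfl
      have hneg : (-e) ^ 2 = e ^ 2 := by ring
      exact ded_cubic (by rw [hneg]; exact h1) (by rw [hneg]; exact h2)
    exact key _ hp₂
  have hs₁ := G2.toClass_surj (W := W₁) (hns W₁ hΔ₁)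
  have hs₂ := G2.toClass_surj (W := W₂) (hns W₂ hΔ₂)
  refine finrank_le_of_maps (P₁ := W₁.Point) (P₂ := W₂.Point)
    (ClassGroup.extendedHom (CR (quint k e)) (Localization.Away (pp X : CR (quint k e)))).toAdditive
    (g.comp ((WeierstrassCurve.Affine.Point.toClass (W := W₁)).prodMap
      (WeierstrassCurve.Affine.Point.toClass (W := W₂)))) ?_ ?_
  · intro c hc
    obtain ⟨I, hI⟩ := ClassGroup.mk0_surjective c.toMul
    have h3 : ClassGroup.extendedHom (CR (quint k e)) (Localization.Away (pp X : CR (quint k e)))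
        (ClassGroup.mk0 I) = 1 := by
      rw [hI]; exact hc
    rw [ClassGroup.extendedHom_mk0, ClassGroup.mk0_eq_one_iff] at h3
    obtain ⟨b, hb⟩ := h3.principal
    obtain ⟨a, ha⟩ := G2.descend (pp X : CR (quint k e)) hx0 (P0 k e) P0_prime (P0_sq he) hb
    have h4 : ClassGroup.mk0 (I ^ 2) = 1 := by
      rw [ClassGroup.mk0_eq_one_iff]
      exact ⟨⟨a, by rw [SubmonoidClass.coe_pow]; exact ha⟩⟩
    rw [map_pow, hI] at h4
    rw [two_zsmul]
    apply Additive.toMul.injective
    show c.toMul * c.toMul = 1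
    rw [← sq]; exact h4
  · intro n
    obtain ⟨⟨q₁, q₂⟩, hq⟩ := hg n
    obtain ⟨P₁, hP₁⟩ := hs₁ q₁
    obtain ⟨P₂, hP₂⟩ := hs₂ q₂
    refine ⟨(P₁, P₂), ?_⟩
    rw [← hq, ← hP₁, ← hP₂]
    rfl

end desc

end Pool.Agent.K7.H65.G3
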