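import Pool.Agent.K7.H65.G3.Rank
import Pool.Agent.Y19.QT.DefsK

set_option autoImplicit false

/-!
# The rank of the class group of `y² = x⁵ + a x³ + e⁴ x`, for integers `a`, `e`
-/

namespace Pool.Agent.K7.H65.G3

open Pool.Agent.TH943.HJ Cardinal
open Pool.Agent.Y19.QT (FinGenK rkK EK)

theorem rank_K (K : Type) [Field K] [CharZero K] (a e p q : ℤ) (he : e ≠ 0)
    (h12 : (a + 2 * e ^ 2) * (a - 2 * e ^ 2) ≠ 0) (hp : p = 81 * a - 270 * e ^ 2)
    (hq : q = 108 * e * (14 * e ^ 2 - 9 * a)) (f1 : FinGenK K p q) (f2 : FinGenK K p (-q))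
    [IsDomain (CR (quint (a : K) (e : K)))] :
    IsDedekindDomain (CR (quint (a : K) (e : K))) ∧
    Module.rank ℤ (Additive (ClassGroup (CR (quint (a : K) (e : K))))) < ℵ₀ ∧
    Module.finrank ℤ (Additive (ClassGroup (CR (quint (a : K) (e : K))))) ≤
      rkK K p q + rkK K p (-q) := by
  classical
  have he' : ((e : ℤ) : K) ≠ 0 := by exact_mod_cast he
  have h1 : ((a : ℤ) : K) + 2 * (e : K) ^ 2 ≠ 0 := by
    exact_mod_cast left_ne_zero_of_mul h12
  have h2 : ((a : ℤ) : K) - 2 * (e : K) ^ 2 ≠ 0 := by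
    exact_mod_cast right_ne_zero_of_mul h12
  refine ⟨ded_quint he' h1 h2, ?_⟩
  have f1' : Module.Finite ℤ (EK K p q) := f1
  have f2' : Module.Finite ℤ (EK K p (-q)) := f2
  have hW₁ : (WeierstrassCurve.toAffine
      ({ a₁ := 0, a₂ := 0, a₃ := 0, a₄ := ((p : ℤ) : K), a₆ := ((q : ℤ) : K) } :
        WeierstrassCurve K)) = ellS
      (81 * (a : K) - 270 * (e : K) ^ 2)
      (108 * (e : K) * (14 * (e : K) ^ 2 - 9 * (a : K))) := by
    unfold ellS
    rw [hp, hq]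
    push_cast
    rfl
  have hW₂ : (WeierstrassCurve.toAffine
      ({ a₁ := 0, a₂ := 0, a₃ := 0, a₄ := ((p : ℤ) : K), a₆ := ((-q : ℤ) : K) } :
        WeierstrassCurve K)) = ellS
      (81 * (a : K) - 270 * (e : K) ^ 2)
      (-(108 * (e : K) * (14 * (e : K) ^ 2 - 9 * (a : K)))) := by
    unfold ellS
    rw [hp, hq]
    push_cast
    rfl
  exact rank_class he' h1 h2 _ _ hW₁ hW₂

end Pool.Agent.K7.H65.G3
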